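import Pool.Agent.Q297.LC.DevA

/-!
# Project LC, job DEV (helper297): boxes and the torus, for circuits
-/

set_option autoImplicit false

namespace Pool.Agent.Q297.LC

open Finset Equiv Matrix Q292.LC

lemma PE_sum (hPEB : S_PEB) {V : Type} [Fintype V] [DecidableEq V] (e : ℕ → V × V) (n : ℕ)
    (δ w : ℝ) (h0 : 0 ≤ δ) (h1 : δ ≤ 1) (hw0 : 0 ≤ w) (hw1 : w < 1) {ι : Type} (s : Finset ι)
    (F : ι → (ℕ → Bool) → Finset V → ℝ) :
    PE e n δ w (fun ω A => ∑ i ∈ s, F i ω A) = ∑ i ∈ s, PE e n δ w (F i) := by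
  classical
  obtain ⟨p1, p2, -, -, -, -⟩ := hPEB V e n δ w h0 h1 hw0 hw1
  induction s using Finset.induction_on with
  | empty =>
    simp only [Finset.sum_empty]
    have := p1 (fun _ => 0)
    rw [this, Pool.Agent.Q68.LC.EE_const]
  | insert a s ha ih =>
    simp only [Finset.sum_insert ha]
    rw [p2, ih]

lemma phz_zero {d L : ℕ} [NeZero L] (r : ℕ) (Dm : Finset (Fin d → ZMod L))
    (z a : Fin d → ZMod L) (ha : a ∈ Dm) : phz r Dm z a = 0 := by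
  unfold phz
  have h1 : ∀ z' : Fin d → ZMod L, chi r Dm z' a = 0 := by
    intro z'
    unfold chi
    rw [if_neg]
    intro h
    exact (Finset.mem_sdiff.1 h).2 ha
  simp [h1]

lemma pow_half {y : ℝ} (hy : 0 ≤ y) (d : ℕ) : (y ^ 8) ^ (d / 2 : ℝ) = y ^ (4 * d) := by
  rw [← Real.rpow_natCast y 8, ← Real.rpow_mul hy, ← Real.rpow_natCast y (4 * d)]
  congr 1
  push_cast
  ring

lemma Gd_empty {d L : ℕ} [NeZero L] (σ : ℕ → (Fin d → ZMod L) × Fin d) (q K lam r ρ κ₀ : ℕ)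
    (ω : ℕ → Bool) : Gd σ q K lam r ρ κ₀ ω ∅ := by
  refine ⟨?_, ?_, ?_⟩
  · rintro ⟨j, -, v, h⟩
    rw [Finset.image_empty, Finset.empty_inter, Finset.card_empty] at h
    exact absurd h (Nat.not_lt_zero _)
  · intro j _ a ha
    exact absurd ha (Finset.notMem_empty a)
  · intro a ha
    exact absurd ha (Finset.notMem_empty a)

open Classical in
theorem dev (hBTL : S_BTL) (hLAM : S_LAM) (hRES : S_RES) (hDVA : S_DVA) (hPEB : S_PEB)
    (hDME : S_DME) (hGDM : S_GDM) : S_DEV := by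
  intro d hd
  obtain ⟨C₁, m₁, hC₁, hB⟩ := hBTL d hd
  obtain ⟨CA, ε, hCA, hε, hA⟩ := hLAM d hd
  refine ⟨8 * (d + 2) + 8 * d * m₁ + 3 * m₁ + 8 + 1, CA, fun h hh η hη => ?_⟩
  set η₁ := min η 1 with hη₁
  have hη₁0 : 0 < η₁ := lt_min hη one_pos
  have hη₁1 : η₁ ≤ 1 := min_le_right _ _
  have hη₁η : η₁ ≤ η := min_le_left _ _
  set η' := η₁ / 12 with hη'
  have hη'0 : 0 < η' := by positivity
  have hη'1 : η' ≤ 1 / 2 := by rw [hη']; linarith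
  clear_value η₁
  obtain ⟨L₀, hL₀⟩ := exists_pars d C₁ m₁ CA h hd hC₁ η' η₁ hη'0 hη₁0
  refine ⟨L₀, fun L K _ hL hlog hK2 => ?_⟩
  obtain ⟨Z, r₁, y, P⟩ := hL₀ L K hL hlog hK2
  have hd' : (3 : ℝ) ≤ d := by exact_mod_cast hd
  have hC₁' : (1 : ℝ) ≤ C₁ := by exact_mod_cast hC₁
  have hCA' : (1 : ℝ) ≤ CA := by exact_mod_cast hCA
  have hL3' : (3 : ℝ) ≤ L := by exact_mod_cast P.L3
  have hZ1' : (1 : ℝ) ≤ Z := by exact_mod_cast P.Z1
  have hy1 := P.y1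
  have hy0 : 0 < y := by linarith
  have hLd : (0 : ℝ) < (L : ℝ) ^ d := by positivity
  have hLd3 : 3 * (L : ℝ) ^ 2 ≤ (L : ℝ) ^ d := by
    calc 3 * (L : ℝ) ^ 2 ≤ L * (L : ℝ) ^ 2 := by gcongr
      _ = (L : ℝ) ^ 3 := by ring
      _ ≤ (L : ℝ) ^ d := pow_le_pow_right₀ (by linarith) hd
  have hyLd : y ^ 10 / (L : ℝ) ^ d ≤ 1 / 3 := by
    rw [div_le_div_iff₀ hLd (by norm_num)]
    linarith [P.yL]
  -- the marking parameter
  set w : ℝ := 1 - y ^ 10 / (L : ℝ) ^ d with hw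
  have hwh : 1 / 2 ≤ w := by rw [hw]; linarith
  have hw0 : 0 ≤ w := by linarith
  have hw1 : w < 1 := by
    rw [hw]
    have : 0 < y ^ 10 / (L : ℝ) ^ d := by positivity
    linarith
  have hwL : (L : ℝ) ^ d * (1 - w) = y ^ 10 := by
    rw [hw]; field_simp; ring
  clear_value w
  have hKy : (K : ℝ) ^ (d / 2 : ℝ) = y ^ (4 * d) := by rw [← P.y8, pow_half hy0.le]
  have hKy' : (K : ℝ) ^ (-(d / 2 : ℝ)) = 1 / y ^ (4 * d) := by
    rw [Real.rpow_neg (Nat.cast_nonneg K), hKy, one_div]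
  have hy11 : y ^ 11 ≤ y ^ (4 * d) := pow_le_pow_right₀ hy1 (by omega)
  have hy10 : y ^ 10 ≤ y ^ (4 * d) := pow_le_pow_right₀ hy1 (by omega)
  -- kappa
  set κ : ℝ := C₁ * ((K : ℝ) ^ (-(d / 2 : ℝ)) + 1 / ((L : ℝ) ^ d * (1 - w))) with hκ
  have hκle : κ ≤ 2 * C₁ / y ^ 10 := by
    rw [hκ, hwL, hKy']
    have h1 : 1 / y ^ (4 * d) ≤ 1 / y ^ 10 := one_div_le_one_div_of_le (by positivity) hy10
    calc C₁ * (1 / y ^ (4 * d) + 1 / y ^ 10) ≤ C₁ * (1 / y ^ 10 + 1 / y ^ 10) := by gcongr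
      _ = 2 * C₁ / y ^ 10 := by ring
  have hκ0 : 0 ≤ κ := by
    rw [hκ, hwL, hKy']; positivity
  have hr₁3 : 3 ≤ r₁ := hd.trans P.dr
  have hr2 : ((2 * r₁ + 1 : ℕ) : ℝ) ^ d ≤ 3 ^ d * y ^ 9 := by
    have h1 : ((2 * r₁ + 1 : ℕ) : ℝ) ≤ 3 * (r₁ : ℝ) := by
      have h2 : 2 * r₁ + 1 ≤ 3 * r₁ := by omega
      exact_mod_cast h2
    calc ((2 * r₁ + 1 : ℕ) : ℝ) ^ d ≤ (3 * (r₁ : ℝ)) ^ d := pow_le_pow_left₀ (by positivity) h1 d
      _ = 3 ^ d * (r₁ : ℝ) ^ d := by rw [mul_pow]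
      _ ≤ 3 ^ d * y ^ 9 := mul_le_mul_of_nonneg_left P.rd (by positivity)
  have hkey : ((2 * r₁ + 1 : ℕ) : ℝ) ^ d * ((Z + 2) * κ) ≤ Real.exp (-1) := by
    have h1 : ((2 * r₁ + 1 : ℕ) : ℝ) ^ d * ((Z + 2) * κ) ≤
        (3 ^ d * y ^ 9) * ((3 * Z) * (2 * C₁ / y ^ 10)) := by
      refine mul_le_mul hr2 ?_ (by positivity) (by positivity)
      exact mul_le_mul (by linarith) hκle hκ0 (by positivity)
    have h2 : (3 ^ d * y ^ 9) * ((3 * Z) * (2 * C₁ / y ^ 10)) = 6 * 3 ^ d * C₁ * Z / y := by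
      field_simp; ring
    have h3 : 6 * 3 ^ d * C₁ * Z / y ≤ 1 / 3 := by
      rw [div_le_div_iff₀ hy0 (by norm_num)]
      have := P.b1
      linarith
    have h4 : 1 / 3 ≤ Real.exp (-1) := by
      rw [Real.exp_neg, one_div]
      refine inv_anti₀ (Real.exp_pos 1) ?_
      have := Real.exp_one_lt_d9
      linarith
    linarith
  have hκZ : ((Z : ℝ) + 2) * κ ≤ 1 := by
    have h1 : 1 ≤ ((2 * r₁ + 1 : ℕ) : ℝ) ^ d := one_le_pow₀ (by
      have : 1 ≤ 2 * r₁ + 1 := by omega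
      exact_mod_cast this)
    have h2 : Real.exp (-1) ≤ 1 := Real.exp_le_one_iff.2 (by norm_num)
    have h3 : 0 ≤ ((Z : ℝ) + 2) * κ := by positivity
    nlinarith
  have hrL : (Z + 1) * (2 * r₁ + 1) ^ d ≤ L ^ d := by
    have h1 : ((Z : ℝ) + 1) * ((2 * r₁ + 1 : ℕ) : ℝ) ^ d ≤ (L : ℝ) ^ d := by
      calc ((Z : ℝ) + 1) * ((2 * r₁ + 1 : ℕ) : ℝ) ^ d ≤ (2 * Z) * (3 ^ d * y ^ 9) :=
            mul_le_mul (by linarith) hr2 (by positivity) (by positivity)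
        _ = (2 * 3 ^ d * Z) * y ^ 9 := by ring
        _ ≤ y * y ^ 9 := by
            refine mul_le_mul_of_nonneg_right (le_trans ?_ P.b1) (by positivity)
            have : 0 ≤ (3 : ℝ) ^ d * Z := by positivity
            nlinarith
        _ = y ^ 10 := by ring
        _ ≤ (L : ℝ) ^ 2 := P.yL
        _ ≤ (L : ℝ) ^ d := pow_le_pow_right₀ (by linarith) (by omega)
    exact_mod_cast h1
  obtain ⟨q₁, hq₁⟩ := hB Z P.ZC L K Z r₁ Z ((Z - 1) / 2) le_rfl le_rfl (by have := P.Z1; omega)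
    P.LZ P.Zr P.ZL P.ZK P.KLd
  obtain ⟨q₂, hq₂⟩ := hA h hh Z P.Z1 η' hη'0 hη'1 L K Z r₁ Z (2 * ((Z - 1) / 2)) le_rfl le_rfl
    P.LZ P.L3 P.KL2 P.dr P.K9 P.rK P.big
  refine ⟨max (max q₁ q₂) 2, fun q hq σ hσ δ h1 h2 => ?_⟩
  have hq' : (2 : ℝ) ≤ q := by exact_mod_cast (le_max_right _ _).trans hq
  have hqq₁ : q₁ ≤ q := ((le_max_left _ _).trans (le_max_left _ _)).trans hq
  have hqq₂ : q₂ ≤ q := ((le_max_right _ _).trans (le_max_left _ _)).trans hq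
  have hδ0 : 0 ≤ δ := by
    by_contra hcon
    push Not at hcon
    nlinarith
  have hδ1 : δ ≤ 1 := by nlinarith
  set n := K * (q * ms d L) with hn
  set r := Nat.sqrt K / h with hr
  obtain ⟨hr1, hr4, hrs, -⟩ := hq₂ q hqq₂ σ hσ δ h1 h2 (fun _ => false) ∅
    (Gd_empty σ q K Z r₁ Z _ _) r rfl _ rfl
  refine ⟨hr1, by omega, ?_⟩
  obtain ⟨p1, p2, p3, p4, p5, -⟩ := hPEB _ (ed ∘ σ) n δ w hδ0 hδ1 hw0 hw1
  set B : (ℕ → Bool) → Finset (Fin d → ZMod L) → Prop :=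
    fun ω A => Gd σ q K Z r₁ Z (2 * ((Z - 1) / 2)) ω A with hBdef
  set Λ : ℝ := CA * (K : ℝ) ^ (d / 2 : ℝ) / (r : ℝ) ^ (2 * d) with hΛ
  have hΛ0 : 0 ≤ Λ := by rw [hΛ, hKy]; positivity
  set S : (Fin d → ZMod L) → (ℕ → Bool) → Finset (Fin d → ZMod L) → ℝ := fun z ω A =>
    if B ω A then ∑ x ∈ univ \ A, ((∑ y ∈ cyc (gp (ed ∘ σ) ω n) x,
      phz r (Dmg (ed ∘ σ) ω A δ ε n) z y) / ((cyc (gp (ed ∘ σ) ω n) x).card : ℝ)) ^ 2 else 0
    with hS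
  have hSz : ∀ z, PE (ed ∘ σ) n δ w (S z) ≤ (1 - w) * Λ := by
    intro z
    refine hRES _ (ed ∘ σ) n δ w Λ B (fun ω A => phz r (Dmg (ed ∘ σ) ω A δ ε n) z) hδ0 hδ1 hw0 hw1
      hΛ0 (fun A => (hGDM d L σ q K Z r₁ Z _).1 A) ?_ ?_ ?_
    · intro A ω ω' hωω
      have := hDME _ (ed ∘ σ) n A δ ε ω ω' hωω
      simp only at this
      simp only [this]
    · intro ω A a ha
      refine phz_zero r _ z a ?_
      unfold Dmg
      exact Finset.mem_filter.2 ⟨Finset.mem_univ _, Or.inl ha⟩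
    · intro ω A _ hBA
      exact (hq₂ q hqq₂ σ hσ δ h1 h2 ω A hBA r rfl _ rfl).2.2.2.2 z w hwh hw1
  obtain ⟨NB, hNB⟩ : ∃ NB : (ℕ → Bool) → Finset (Fin d → ZMod L) → Prop,
    NB = fun ω A => ¬ B ω A := ⟨_, rfl⟩
  obtain ⟨XB, hXB⟩ : ∃ XB : (Fin d → ZMod L) → (ℕ → Bool) → Finset (Fin d → ZMod L) → Prop,
    XB = fun x ω A => x ∈ A ∧ B ω A := ⟨_, rfl⟩
  have hNB' : ∀ ω A, NB ω A ↔ ¬ B ω A := fun ω A => by rw [hNB]
  have hXB' : ∀ x ω A, XB x ω A ↔ (x ∈ A ∧ B ω A) := fun x ω A => by rw [hXB]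
  -- pointwise inequality
  have hpt : ∀ ω A, Inv (gp (ed ∘ σ) ω n) A →
      Qb r (gp (ed ∘ σ) ω n) - Qv (gp (ed ∘ σ) ω n) ≤
      3 * (∑ z, S z ω A) + (24 * η' ^ 2 + ((2 / (L : ℝ) ^ d) *
        (∑ x : Fin d → ZMod L, (if XB x ω A then (1 : ℝ) else 0)) +
        (if NB ω A then 1 else 0))) := by
    intro ω A hInv
    by_cases hBA : B ω A
    · obtain ⟨-, -, -, e1, -⟩ := hq₂ q hqq₂ σ hσ δ h1 h2 ω A hBA r rfl _ rfl
      have hADm : A ⊆ Dmg (ed ∘ σ) ω A δ ε n := by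
        intro a ha
        unfold Dmg
        exact Finset.mem_filter.2 ⟨Finset.mem_univ _, Or.inl ha⟩
      have e2 := hDVA d L (by omega) (gp (ed ∘ σ) ω n) A (Dmg (ed ∘ σ) ω A δ ε n) r η' hr1
        (by omega) hInv hADm hη'0.le hη'1 e1
      have e3 : (∑ x : Fin d → ZMod L, (if XB x ω A then (1 : ℝ) else 0)) = A.card := by
        have : ∀ x : Fin d → ZMod L, (if XB x ω A then (1 : ℝ) else 0) =
            if x ∈ A then 1 else 0 := by
          intro x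
          by_cases hx : x ∈ A
          · rw [if_pos hx, if_pos ((hXB' x ω A).2 ⟨hx, hBA⟩)]
          · rw [if_neg hx, if_neg (fun hh => hx ((hXB' x ω A).1 hh).1)]
        simp only [this]
        rw [Finset.sum_ite_mem, Finset.univ_inter, Finset.sum_const, nsmul_eq_mul, mul_one]
      have e4 : ∀ z, S z ω A = ∑ x ∈ univ \ A, ((∑ y ∈ cyc (gp (ed ∘ σ) ω n) x,
          phz r (Dmg (ed ∘ σ) ω A δ ε n) z y) / ((cyc (gp (ed ∘ σ) ω n) x).card : ℝ)) ^ 2 := by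
        intro z
        rw [hS]
        simp only
        rw [if_pos hBA]
      simp only [e4]
      rw [e3, if_neg (fun hh => (hNB' ω A).1 hh hBA), add_zero]
      have e5 : 2 / (L : ℝ) ^ d * (A.card : ℝ) = 2 * A.card / (L : ℝ) ^ d := by ring
      rw [e5]
      linarith
    · rw [if_pos ((hNB' ω A).2 hBA)]
      have e1 := Qb_le hr1 (by omega : r ≤ L) (gp (ed ∘ σ) ω n)
      have e2 := Qv_nonneg (gp (ed ∘ σ) ω n)
      have e3 : 0 ≤ ∑ z, S z ω A := by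
        refine Finset.sum_nonneg fun z _ => ?_
        rw [hS]
        simp only
        rw [if_neg hBA]
      have e4 : 0 ≤ (∑ x : Fin d → ZMod L, (if XB x ω A then (1 : ℝ) else 0)) :=
        Finset.sum_nonneg fun x _ => by split_ifs <;> norm_num
      have e5 : 0 ≤ 2 / (L : ℝ) ^ d * (∑ x : Fin d → ZMod L,
        (if XB x ω A then (1 : ℝ) else 0)) := mul_nonneg (by positivity) e4
      have e6 : 0 ≤ 24 * η' ^ 2 := by positivity
      linarith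
  have hPE := p4 _ _ hpt
  rw [p1 (fun ω => Qb r (gp (ed ∘ σ) ω n) - Qv (gp (ed ∘ σ) ω n)), p2, p2, p2,
    p3 3 (fun ω A => ∑ z, S z ω A), p3 (2 / (L : ℝ) ^ d) (fun ω A =>
      ∑ x : Fin d → ZMod L, (if XB x ω A then (1 : ℝ) else 0)),
    p1 (fun _ => 24 * η' ^ 2), Pool.Agent.Q68.LC.EE_const,
    PE_sum hPEB _ _ _ _ hδ0 hδ1 hw0 hw1, PE_sum hPEB _ _ _ _ hδ0 hδ1 hw0 hw1,
    p5 NB] at hPE
  refine hPE.trans ?_
  obtain ⟨b1, b2⟩ := hq₁ q hqq₁ σ hσ δ h1 h2 w hw0 hw1 κ hκ hκZ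
  -- the four terms
  have t1 : 3 * ∑ z, PE (ed ∘ σ) n δ w (S z) ≤ η₁ / 4 := by
    have e1 : ∑ z, PE (ed ∘ σ) n δ w (S z) ≤ (L : ℝ) ^ d * ((1 - w) * Λ) := by
      refine (Finset.sum_le_card_nsmul _ _ _ fun z _ => hSz z).trans ?_
      rw [card_V, nsmul_eq_mul]
      push_cast
      exact le_rfl
    have e2 : (L : ℝ) ^ d * ((1 - w) * Λ) = y ^ 10 * Λ := by rw [← hwL]; ring
    rw [e2] at e1
    have hrpos : (0 : ℝ) < r := by exact_mod_cast hr1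
    have e3 : y ^ (8 * d) ≤ (2 * (h : ℝ)) ^ (2 * d) * (r : ℝ) ^ (2 * d) := by
      have e4 : Real.sqrt K = y ^ 4 := by
        rw [← P.y8, show y ^ 8 = (y ^ 4) ^ 2 by ring, Real.sqrt_sq (by positivity)]
      rw [e4] at hrs
      have e5 := pow_le_pow_left₀ (by positivity) hrs (2 * d)
      have e6 : (y ^ 4) ^ (2 * d) = y ^ (8 * d) := by rw [← pow_mul]; congr 1; ring
      rw [e6, mul_pow] at e5
      exact e5
    have e7 : Λ ≤ CA * (2 * (h : ℝ)) ^ (2 * d) / y ^ (4 * d) := by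
      rw [hΛ, hKy, div_le_div_iff₀ (by positivity) (by positivity)]
      have e8 : y ^ (8 * d) = y ^ (4 * d) * y ^ (4 * d) := by rw [← pow_add]; congr 1; ring
      rw [e8] at e3
      have := mul_le_mul_of_nonneg_left e3 (by positivity : (0 : ℝ) ≤ CA)
      linarith
    have e9 : y ^ 10 * Λ ≤ CA * (2 * (h : ℝ)) ^ (2 * d) / y := by
      calc y ^ 10 * Λ ≤ y ^ 10 * (CA * (2 * (h : ℝ)) ^ (2 * d) / y ^ (4 * d)) :=
            mul_le_mul_of_nonneg_left e7 (by positivity)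
        _ ≤ CA * (2 * (h : ℝ)) ^ (2 * d) / y := by
            rw [← mul_div_assoc, div_le_div_iff₀ (by positivity) hy0]
            have := mul_le_mul_of_nonneg_left hy11
              (by positivity : (0 : ℝ) ≤ CA * (2 * (h : ℝ)) ^ (2 * d))
            calc y ^ 10 * (CA * (2 * (h : ℝ)) ^ (2 * d)) * y =
                  CA * (2 * (h : ℝ)) ^ (2 * d) * y ^ 11 := by ring
              _ ≤ _ := this
    have e10 : 3 * (CA * (2 * (h : ℝ)) ^ (2 * d) / y) ≤ η₁ / 4 := by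
      have := P.b2
      rw [div_le_iff₀ hη₁0] at this
      rw [← mul_div_assoc, div_le_div_iff₀ hy0 (by norm_num)]
      linarith
    linarith
  have t2 : 24 * η' ^ 2 ≤ η₁ / 6 := by
    rw [hη']
    nlinarith
  have t3 : 2 / (L : ℝ) ^ d * ∑ x : Fin d → ZMod L,
      PE (ed ∘ σ) n δ w (fun ω A => if XB x ω A then (1 : ℝ) else 0) ≤ η₁ / 4 := by
    have e1 : ∑ x : Fin d → ZMod L,
        PE (ed ∘ σ) n δ w (fun ω A => if XB x ω A then (1 : ℝ) else 0) ≤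
        (L : ℝ) ^ d * κ := by
      refine (Finset.sum_le_card_nsmul _ _ κ fun x _ => ?_).trans ?_
      · rw [p5 (XB x), hXB]
        exact b2 x
      · rw [card_V, nsmul_eq_mul]
        push_cast
        exact le_rfl
    have e2 : 2 / (L : ℝ) ^ d * ((L : ℝ) ^ d * κ) = 2 * κ := by field_simp
    have e3 : 2 * κ ≤ η₁ / 4 := by
      have e4 : 2 * C₁ / y ^ 10 ≤ 2 * C₁ / y :=
        div_le_div_of_nonneg_left (by positivity) hy0 (le_self_pow₀ hy1 (by norm_num))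
      have e5 : 2 * (2 * C₁ / y) ≤ η₁ / 4 := by
        have := P.b3
        rw [div_le_iff₀ hη₁0] at this
        rw [← mul_div_assoc, div_le_div_iff₀ hy0 (by norm_num)]
        linarith
      linarith
    have e6 := mul_le_mul_of_nonneg_left e1 (by positivity : (0 : ℝ) ≤ 2 / (L : ℝ) ^ d)
    linarith
  have t4 : PW (ed ∘ σ) n δ w NB ≤ η₁ / 4 := by
    rw [hNB]
    have hKL : K ≤ L ^ d := P.KLd
    have e1 := fail_bound (d := d) (C₁ := C₁) (L := L) (K := K) (Z := Z) (r := r₁) (κ := κ)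
      (by omega) hC₁ (by have := P.L3; omega) P.Zlog hKL hrL hκ0 hkey
    refine (b1.trans e1).trans ?_
    have e2 : y ≤ (L : ℝ) ^ d := by
      have e3 : y ≤ y ^ 8 := le_self_pow₀ hy1 (by norm_num)
      rw [P.y8] at e3
      have e4 : (K : ℝ) ≤ (L : ℝ) ^ d := by exact_mod_cast hKL
      linarith
    have e5 : (5 * (C₁ : ℝ) + 1) * (1 / (L : ℝ) ^ d) ≤ (5 * C₁ + 1) * (1 / y) := by
      refine mul_le_mul_of_nonneg_left (one_div_le_one_div_of_le hy0 e2) (by positivity)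
    have e6 : (5 * (C₁ : ℝ) + 1) * (1 / y) ≤ η₁ / 4 := by
      have := P.b4
      rw [div_le_iff₀ hη₁0] at this
      rw [mul_one_div, div_le_div_iff₀ hy0 (by norm_num)]
      linarith
    linarith
  linarith

end Pool.Agent.Q297.LC
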