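import Pool.Agent.Q292.LC.Stm7
import Pool.Agent.Q68.LC.Bas3
import Pool.Agent.Q154.LC.Pai
import Pool.Agent.Q53.LC.Base

/-!
# Project LC, job TRO (helper297): circuits converge to stirring
-/

set_option autoImplicit false

namespace Pool.Agent.Q297.LC

open Finset Equiv Matrix Q292.LC
open Pool.Agent.Y998.ST (stirExp nnRate qq stirLaw totalRate)

section gen

variable {V : Type} [DecidableEq V]

/-- one step on functions of the permutation -/
def sw (δ : ℝ) (p : V × V) (F : Perm V → ℝ) : Perm V → ℝ :=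
  fun g => (1 - δ) * F g + δ * F (swap p.1 p.2 * g)

/-- `m` steps `n, ..., n + m - 1` on functions of the permutation -/
def AA (δ : ℝ) (e : ℕ → V × V) (n : ℕ) : ℕ → (Perm V → ℝ) → (Perm V → ℝ)
  | 0, F => F
  | m + 1, F => AA δ e n m (sw δ (e (n + m)) F)

lemma AA_zero (δ : ℝ) (e : ℕ → V × V) (n : ℕ) (F : Perm V → ℝ) : AA δ e n 0 F = F := rfl

lemma AA_succ (δ : ℝ) (e : ℕ → V × V) (n m : ℕ) (F : Perm V → ℝ) :
    AA δ e n (m + 1) F = AA δ e n m (sw δ (e (n + m)) F) := rfl

lemma EE_step (δ : ℝ) (e : ℕ → V × V) (n : ℕ) (F : Perm V → ℝ) :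
    EE (n + 1) δ (fun ω => F (gp e ω (n + 1))) = EE n δ (fun ω => sw δ (e n) F (gp e ω n)) := by
  rw [Pool.Agent.Q68.LC.EE_succ]
  have h1 : EE n δ (fun ω => F (gp e ω (n + 1))) = EE n δ (fun ω => F (gp e ω n)) :=
    Pool.Agent.Q68.LC.EE_congr fun ω hω => by
      rw [Pool.Agent.Q154.LC.gp_false e ω n (hω n le_rfl)]
  have h2 : (fun ω => F (gp e (Function.update ω n true) (n + 1))) =
      fun ω => F (swap (e n).1 (e n).2 * gp e ω n) := by
    funext ω
    rw [Pool.Agent.Q154.LC.gp_update]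
  rw [h1, h2, ← Pool.Agent.Q68.LC.EE_smul, ← Pool.Agent.Q68.LC.EE_smul, ← Pool.Agent.Q68.LC.EE_add]
  rfl

lemma EE_AA (δ : ℝ) (e : ℕ → V × V) (n m : ℕ) : ∀ F : Perm V → ℝ,
    EE (n + m) δ (fun ω => F (gp e ω (n + m))) = EE n δ (fun ω => AA δ e n m F (gp e ω n)) := by
  induction m with
  | zero => intro F; rfl
  | succ m ih =>
    intro F
    rw [← add_assoc, EE_step, ih]
    rfl

lemma AA_shift (δ : ℝ) (e : ℕ → V × V) (n : ℕ) (h : ∀ k, e (n + k) = e k) (m : ℕ) :
    ∀ F : Perm V → ℝ, AA δ e n m F = AA δ e 0 m F := by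
  induction m with
  | zero => intro F; rfl
  | succ m ih =>
    intro F
    rw [AA_succ, AA_succ, ih, h, zero_add]

lemma sw_bound {δ : ℝ} (h0 : 0 ≤ δ) (h1 : δ ≤ 1) (p : V × V) {F : Perm V → ℝ} {B : ℝ}
    (hF : ∀ g, |F g| ≤ B) (g : Perm V) : |sw δ p F g| ≤ B := by
  unfold sw
  have ha := abs_le.1 (hF g)
  have hb := abs_le.1 (hF (swap p.1 p.2 * g))
  rw [abs_le]
  constructor <;> nlinarith

lemma sw_diff {δ : ℝ} (h0 : 0 ≤ δ) (p : V × V) {F : Perm V → ℝ} {B : ℝ}
    (hF : ∀ g, |F g| ≤ B) (g : Perm V) : |sw δ p F g - F g| ≤ 2 * δ * B := by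
  unfold sw
  have ha := abs_le.1 (hF g)
  have hb := abs_le.1 (hF (swap p.1 p.2 * g))
  rw [abs_le]
  constructor <;> nlinarith

lemma AA_bound {δ : ℝ} (h0 : 0 ≤ δ) (h1 : δ ≤ 1) (e : ℕ → V × V) (n m : ℕ) :
    ∀ {F : Perm V → ℝ} {B : ℝ}, (∀ g, |F g| ≤ B) → ∀ g, |AA δ e n m F g| ≤ B := by
  induction m with
  | zero => intro F B hF g; exact hF g
  | succ m ih => intro F B hF g; exact ih (sw_bound h0 h1 _ hF) g

/-- second order expansion of `m` steps -/
lemma AA_exp {δ : ℝ} (h0 : 0 ≤ δ) (h1 : δ ≤ 1) (e : ℕ → V × V) (n m : ℕ) :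
    ∀ {F : Perm V → ℝ} {B : ℝ}, (∀ g, |F g| ≤ B) → ∀ g,
    |AA δ e n m F g - F g - δ * ∑ k ∈ Finset.range m,
      (F (swap (e (n + k)).1 (e (n + k)).2 * g) - F g)| ≤ 2 * (m : ℝ) ^ 2 * δ ^ 2 * B := by
  induction m with
  | zero => intro F B hF g; simp [AA_zero]
  | succ m ih =>
    intro F B hF g
    have hB : 0 ≤ B := (abs_nonneg _).trans (hF 1)
    rw [AA_succ]
    have h2 := ih (sw_bound h0 h1 (e (n + m)) hF) g
    have h3 : |∑ k ∈ Finset.range m, ((sw δ (e (n + m)) F (swap (e (n + k)).1 (e (n + k)).2 * g) -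
        sw δ (e (n + m)) F g) - (F (swap (e (n + k)).1 (e (n + k)).2 * g) - F g))| ≤
        m * (4 * δ * B) := by
      refine (Finset.abs_sum_le_sum_abs _ _).trans ?_
      refine (Finset.sum_le_card_nsmul _ _ (4 * δ * B) fun k _ => ?_).trans ?_
      · have e1 := abs_le.1 (sw_diff h0 (e (n + m)) hF (swap (e (n + k)).1 (e (n + k)).2 * g))
        have e2 := abs_le.1 (sw_diff h0 (e (n + m)) hF g)
        rw [abs_le]
        constructor <;> linarith [e1.1, e1.2, e2.1, e2.2]
      · rw [Finset.card_range, nsmul_eq_mul]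
    rw [Finset.sum_sub_distrib] at h3
    rw [Finset.sum_range_succ]
    set S1 := ∑ k ∈ Finset.range m, (sw δ (e (n + m)) F (swap (e (n + k)).1 (e (n + k)).2 * g) -
      sw δ (e (n + m)) F g) with hS1
    set S2 := ∑ k ∈ Finset.range m, (F (swap (e (n + k)).1 (e (n + k)).2 * g) - F g) with hS2
    have h4 : sw δ (e (n + m)) F g = F g + δ * (F (swap (e (n + m)).1 (e (n + m)).2 * g) - F g) := by
      unfold sw; ring
    have h5 : AA δ e n m (sw δ (e (n + m)) F) g - F g -
        δ * (S2 + (F (swap (e (n + m)).1 (e (n + m)).2 * g) - F g)) =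
        (AA δ e n m (sw δ (e (n + m)) F) g - sw δ (e (n + m)) F g - δ * S1) + δ * (S1 - S2) := by
      rw [h4]; ring
    rw [h5]
    refine (abs_add_le _ _).trans ?_
    have h6 : |δ * (S1 - S2)| ≤ δ * (m * (4 * δ * B)) := by
      rw [abs_mul, abs_of_nonneg h0]
      exact mul_le_mul_of_nonneg_left h3 h0
    have h7 : 2 * (m : ℝ) ^ 2 * δ ^ 2 * B + δ * (m * (4 * δ * B)) ≤
        2 * ((m + 1 : ℕ) : ℝ) ^ 2 * δ ^ 2 * B := by
      push_cast
      have : 0 ≤ δ ^ 2 * B := by positivity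
      nlinarith
    linarith

variable [Fintype V]

/-- the walk of one particle -/
lemma EE_PP (e : ℕ → V × V) (δ : ℝ) (x y : V) (n : ℕ) :
    EE n δ (fun ω => if gp e ω n x = y then 1 else 0) = PP e δ n x y := by
  induction n generalizing y with
  | zero =>
    unfold EE PP
    simp only [Finset.range_zero, Finset.powerset_empty, Finset.sum_singleton, Finset.card_empty,
      pow_zero, Nat.sub_zero, one_mul]
    change (if (1 : Perm V) x = y then (1 : ℝ) else 0) = (1 : Matrix V V ℝ) x y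
    rw [Perm.one_apply, Matrix.one_apply]
  | succ n ih =>
    rw [EE_step δ e n (fun g => if g x = y then 1 else 0)]
    unfold sw
    rw [Pool.Agent.Q68.LC.EE_add, Pool.Agent.Q68.LC.EE_smul, Pool.Agent.Q68.LC.EE_smul, ih y]
    have h1 : (fun ω => if (swap (e n).1 (e n).2 * gp e ω n) x = y then (1 : ℝ) else 0) =
        fun ω => if gp e ω n x = swap (e n).1 (e n).2 y then 1 else 0 := by
      funext ω
      have : (swap (e n).1 (e n).2 * gp e ω n) x = y ↔ gp e ω n x = swap (e n).1 (e n).2 y := by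
        rw [Perm.mul_apply]
        constructor
        · intro h; rw [← h, swap_apply_self]
        · intro h; rw [h, swap_apply_self]
      simp only [this]
    rw [h1, ih, Pool.Agent.Q154.LC.PP_succ, Matrix.mul_apply]
    unfold fr pm
    simp only [Matrix.add_apply, Matrix.smul_apply, smul_eq_mul, Matrix.one_apply, Matrix.of_apply,
      mul_add, Finset.sum_add_distrib]
    congr 1
    · rw [Finset.sum_eq_single y]
      · rw [if_pos rfl]; ring
      · intro z _ hz; rw [if_neg hz]; ring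
      · intro h; exact absurd (Finset.mem_univ y) h
    · rw [Finset.sum_eq_single (swap (e n).1 (e n).2 y)]
      · rw [if_pos (swap_apply_self _ _ _)]; ring
      · intro z _ hz
        rw [if_neg]
        · ring
        · intro h; apply hz; rw [← h, swap_apply_self]
      · intro h; exact absurd (Finset.mem_univ _) h

end gen

section stir

variable {V : Type} [Fintype V] [DecidableEq V]

/-- the generator -/
noncomputable def GF (J : V → V → ℝ) (F : Perm V → ℝ) : Perm V → ℝ :=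
  fun g => ∑ x, ∑ y, J x y / 2 * (F (swap x y * g) - F g)

lemma stir_add (J : V → V → ℝ) (t : ℝ) (F G : Perm V → ℝ) :
    stirExp J t (fun g => F g + G g) = stirExp J t F + stirExp J t G := by
  unfold stirExp
  rw [← Finset.sum_add_distrib]
  exact Finset.sum_congr rfl fun g _ => by ring

lemma stir_smul (J : V → V → ℝ) (t c : ℝ) (F : Perm V → ℝ) :
    stirExp J t (fun g => c * F g) = c * stirExp J t F := by
  unfold stirExp
  rw [Finset.mul_sum]
  exact Finset.sum_congr rfl fun g _ => by ring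

lemma stir_sub (J : V → V → ℝ) (t : ℝ) (F G : Perm V → ℝ) :
    stirExp J t (fun g => F g - G g) = stirExp J t F - stirExp J t G := by
  unfold stirExp
  rw [← Finset.sum_sub_distrib]
  exact Finset.sum_congr rfl fun g _ => by ring

lemma stir_bound {J : V → V → ℝ} (hJ : ∀ x y, 0 ≤ J x y) {t : ℝ} (ht : 0 ≤ t) {F : Perm V → ℝ}
    {B : ℝ} (hF : ∀ g, |F g| ≤ B) : |stirExp J t F| ≤ B := by
  rw [abs_le]
  constructor
  · have := Pool.Agent.Y998.ST.exp_mono hJ ht (F := fun _ => -B) (G := F) fun g => (abs_le.1 (hF g)).1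
    rwa [Pool.Agent.Y998.ST.exp_const] at this
  · have := Pool.Agent.Y998.ST.exp_mono hJ ht (F := F) (G := fun _ => B) fun g => (abs_le.1 (hF g)).2
    rwa [Pool.Agent.Y998.ST.exp_const] at this

lemma stir_GF (J : V → V → ℝ) (t : ℝ) (F : Perm V → ℝ) : stirExp J t (GF J F) =
    ∑ x, ∑ y, J x y / 2 * (stirExp J t (fun g => F (swap x y * g)) - stirExp J t F) := by
  unfold GF
  rw [← Pool.Agent.Y998.ST.exp_sum]
  refine Finset.sum_congr rfl fun x _ => ?_
  rw [← Pool.Agent.Y998.ST.exp_sum]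
  refine Finset.sum_congr rfl fun y _ => ?_
  rw [stir_smul, stir_sub]

lemma stir_deriv (J : V → V → ℝ) (t : ℝ) (F : Perm V → ℝ) :
    HasDerivAt (fun u => stirExp J u F) (stirExp J t (GF J F)) t := by
  rw [stir_GF]
  exact Pool.Agent.Y998.ST.exp_deriv J t F

lemma GF_bound {J : V → V → ℝ} (hJ : ∀ x y, 0 ≤ J x y) {F : Perm V → ℝ}
    {B : ℝ} (hF : ∀ g, |F g| ≤ B) (g : Perm V) : |GF J F g| ≤ 2 * totalRate J * B := by
  unfold GF totalRate
  refine (Finset.abs_sum_le_sum_abs _ _).trans ?_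
  rw [Finset.mul_sum, Finset.sum_mul]
  refine Finset.sum_le_sum fun x _ => ?_
  refine (Finset.abs_sum_le_sum_abs _ _).trans ?_
  rw [Finset.mul_sum, Finset.sum_mul]
  refine Finset.sum_le_sum fun y _ => ?_
  rw [abs_mul, abs_of_nonneg (by linarith [hJ x y] : 0 ≤ J x y / 2)]
  have h1 : |F (swap x y * g) - F g| ≤ 2 * B := by
    have ha := abs_le.1 (hF g)
    have hb := abs_le.1 (hF (swap x y * g))
    rw [abs_le]; constructor <;> linarith [ha.1, ha.2, hb.1, hb.2]
  have := mul_le_mul_of_nonneg_left h1 (by linarith [hJ x y] : 0 ≤ J x y / 2)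
  linarith

lemma rate_nonneg {J : V → V → ℝ} (hJ : ∀ x y, 0 ≤ J x y) : 0 ≤ totalRate J :=
  Finset.sum_nonneg fun x _ => Finset.sum_nonneg fun y _ => by linarith [hJ x y]

lemma stir_lip {J : V → V → ℝ} (hJ : ∀ x y, 0 ≤ J x y) {F : Perm V → ℝ}
    {B : ℝ} (hF : ∀ g, |F g| ≤ B) {s t : ℝ} (hs : 0 ≤ s) (hst : s ≤ t) :
    |stirExp J t F - stirExp J s F| ≤ 2 * totalRate J * B * (t - s) := by
  have h := Convex.norm_image_sub_le_of_norm_hasDerivWithin_le (f := fun u => stirExp J u F)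
    (f' := fun u => stirExp J u (GF J F)) (s := Set.Icc s t) (C := 2 * totalRate J * B)
    (fun x _ => (stir_deriv J x F).hasDerivWithinAt)
    (fun x hx => by
      rw [Real.norm_eq_abs]
      exact stir_bound hJ (hs.trans hx.1) (GF_bound hJ hF)) (convex_Icc s t)
    (Set.left_mem_Icc.2 hst) (Set.right_mem_Icc.2 hst)
  rw [Real.norm_eq_abs, Real.norm_eq_abs, abs_of_nonneg (by linarith : 0 ≤ t - s)] at h
  exact h

lemma stir_taylor {J : V → V → ℝ} (hJ : ∀ x y, 0 ≤ J x y) {F : Perm V → ℝ}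
    {B : ℝ} (hF : ∀ g, |F g| ≤ B) {t δ : ℝ} (ht : 0 ≤ t) (hδ : 0 ≤ δ) :
    |stirExp J (t + δ) F - stirExp J t F - δ * stirExp J t (GF J F)| ≤
      4 * totalRate J ^ 2 * B * δ ^ 2 := by
  have hB : 0 ≤ B := (abs_nonneg _).trans (hF 1)
  have hR := rate_nonneg hJ
  have h := Convex.norm_image_sub_le_of_norm_hasDerivWithin_le
    (f := fun u => stirExp J u F - u * stirExp J t (GF J F))
    (f' := fun u => stirExp J u (GF J F) - 1 * stirExp J t (GF J F)) (s := Set.Icc t (t + δ))
    (C := 4 * totalRate J ^ 2 * B * δ)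
    (fun x _ => ((stir_deriv J x F).sub ((hasDerivAt_id x).mul_const _)).hasDerivWithinAt)
    (fun x hx => by
      rw [Real.norm_eq_abs, one_mul]
      refine (stir_lip hJ (GF_bound hJ hF) ht hx.1).trans ?_
      have h1 : x - t ≤ δ := by linarith [hx.2]
      have h2 : 0 ≤ 2 * totalRate J * (2 * totalRate J * B) := by positivity
      have h3 := mul_le_mul_of_nonneg_left h1 h2
      linarith) (convex_Icc t (t + δ))
    (Set.left_mem_Icc.2 (by linarith)) (Set.right_mem_Icc.2 (by linarith))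
  rw [Real.norm_eq_abs, Real.norm_eq_abs, abs_of_nonneg (by linarith : 0 ≤ t + δ - t)] at h
  have e1 : stirExp J (t + δ) F - (t + δ) * stirExp J t (GF J F) -
      (stirExp J t F - t * stirExp J t (GF J F)) =
      stirExp J (t + δ) F - stirExp J t F - δ * stirExp J t (GF J F) := by ring
  rw [e1] at h
  refine h.trans (le_of_eq ?_)
  ring

end stir

section torus

variable {d L : ℕ} [NeZero L]

open Pool.Agent.Y998.ST (nn_sum nn_symm nn_nonneg)

/-- the generator of stirring is the sum over the edges -/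
lemma GF_edges (hL : 3 ≤ L) (F : Perm (Fin d → ZMod L) → ℝ) (g : Perm (Fin d → ZMod L)) :
    GF (nnRate d L) F g = ∑ i : (Fin d → ZMod L) × Fin d,
      (F (swap (ed i).1 (ed i).2 * g) - F g) := by
  unfold GF
  set H : (Fin d → ZMod L) → (Fin d → ZMod L) → ℝ := fun x y => F (swap x y * g) - F g with hH
  have hsym : ∀ x y, H x y = H y x := fun x y => by rw [hH]; simp only [Equiv.swap_comm x y]
  have h1 : ∀ x, ∑ y, nnRate d L x y / 2 * (F (swap x y * g) - F g) =
      (1 / 2) * ∑ a, (H x (Function.update x a (x a + 1)) + H x (Function.update x a (x a - 1))) := by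
    intro x
    rw [← nn_sum hL (fun y => H x y) x, Finset.mul_sum]
    refine Finset.sum_congr rfl fun y _ => ?_
    rw [nn_symm x y]; ring
  rw [Finset.sum_congr rfl fun x _ => h1 x, ← Finset.mul_sum]
  simp only [Finset.sum_add_distrib]
  have h2 : ∑ x : Fin d → ZMod L, ∑ a, H x (Function.update x a (x a - 1)) =
      ∑ x : Fin d → ZMod L, ∑ a, H x (Function.update x a (x a + 1)) := by
    rw [Finset.sum_comm, Finset.sum_comm (s := Finset.univ) (t := Finset.univ)
      (f := fun x a => H x (Function.update x a (x a + 1)))]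
    refine Finset.sum_congr rfl fun a _ => ?_
    refine Finset.sum_bij' (fun x _ => Function.update x a (x a - 1))
      (fun x _ => Function.update x a (x a + 1)) (fun _ _ => Finset.mem_univ _)
      (fun _ _ => Finset.mem_univ _) ?_ ?_ ?_
    · intro x _
      simp
    · intro x _
      simp
    · intro x _
      rw [hsym]
      simp
  rw [h2, Fintype.sum_prod_type]
  have h3 : ∀ (x : Fin d → ZMod L) (a : Fin d), F (swap (ed (x, a)).1 (ed (x, a)).2 * g) - F g =
      H x (Function.update x a (x a + 1)) := fun x a => rfl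
  simp only [h3]
  ring

theorem tro : S_TRO := by
  intro d L _ hd hL K
  set J := nnRate d L with hJ
  have hJn : ∀ x y, 0 ≤ J x y := nn_nonneg
  set C₁ : ℝ := 4 * totalRate J ^ 2 + 2 * (ms d L : ℝ) ^ 2 with hC₁
  have hC₁n : 0 ≤ C₁ := by positivity
  have key : ∀ (q : ℕ) (σ : ℕ → (Fin d → ZMod L) × Fin d), Per σ → ∀ δ : ℝ, 0 ≤ δ → δ ≤ 1 →
      ∀ s : ℕ, ∀ F : Perm (Fin d → ZMod L) → ℝ, (∀ g, |F g| ≤ 1) →
      |EE (s * ms d L) δ (fun ω => F (gp (ed ∘ σ) ω (s * ms d L))) - stirExp J (s * δ) F| ≤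
        s * (C₁ * δ ^ 2) := by
    intro q σ hσ δ h0 h1 s
    induction s with
    | zero =>
      intro F hF
      have e1 : EE (0 * ms d L) δ (fun ω => F (gp (ed ∘ σ) ω (0 * ms d L))) = F 1 := by
        rw [zero_mul]
        unfold EE
        simp only [Finset.range_zero, Finset.powerset_empty, Finset.sum_singleton,
          Finset.card_empty, pow_zero, Nat.sub_zero, one_mul]
        rfl
      have e2 : stirExp J (((0 : ℕ) : ℝ) * δ) F = F 1 := by
        rw [Nat.cast_zero, zero_mul]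
        unfold stirExp
        simp only [Pool.Agent.Y998.ST.law_zero, ite_mul, one_mul, zero_mul]
        rw [Finset.sum_ite_eq' Finset.univ (1 : Perm (Fin d → ZMod L)), if_pos (Finset.mem_univ _)]
      rw [e1, e2]
      simp
    | succ s ih =>
      intro F hF
      have hb := AA_bound h0 h1 (ed ∘ σ) 0 (ms d L) hF
      have h2 := ih (AA δ (ed ∘ σ) 0 (ms d L) F) hb
      have h3 : EE ((s + 1) * ms d L) δ (fun ω => F (gp (ed ∘ σ) ω ((s + 1) * ms d L))) =
          EE (s * ms d L) δ (fun ω => AA δ (ed ∘ σ) 0 (ms d L) F (gp (ed ∘ σ) ω (s * ms d L))) := by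
        rw [Nat.succ_mul, EE_AA, AA_shift]
        intro k
        have h5 : ∀ j, σ (j * ms d L + k) = σ k := by
          intro j
          induction j with
          | zero => rw [zero_mul, zero_add]
          | succ j ihj =>
            rw [Nat.succ_mul, show j * ms d L + ms d L + k = (j * ms d L + k) + ms d L by ring,
              hσ.1, ihj]
        simp only [Function.comp, h5]
      rw [h3]
      have hsδ : 0 ≤ (s : ℝ) * δ := by positivity
      have h6 := stir_taylor hJn hF hsδ h0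
      have h7 : |stirExp J (s * δ) (fun g => AA δ (ed ∘ σ) 0 (ms d L) F g - F g - δ * GF J F g)| ≤
          2 * (ms d L : ℝ) ^ 2 * δ ^ 2 * 1 := by
        refine stir_bound hJn hsδ fun g => ?_
        have h8 := AA_exp h0 h1 (ed ∘ σ) 0 (ms d L) hF g
        have h9 : ∑ k ∈ Finset.range (ms d L), (F (swap ((ed ∘ σ) (0 + k)).1 ((ed ∘ σ) (0 + k)).2 * g) -
            F g) = GF J F g := by
          rw [GF_edges hL, ← Pool.Agent.Q53.LC.sum_sweep hσ
            (fun i => F (swap (ed i).1 (ed i).2 * g) - F g)]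
          refine Finset.sum_congr rfl fun k _ => ?_
          rw [zero_add]
          rfl
        rw [h9] at h8
        exact h8
      rw [stir_sub, stir_sub, stir_smul] at h7
      have e3 : (((s + 1 : ℕ) : ℝ)) * δ = s * δ + δ := by push_cast; ring
      rw [e3]
      have e4 : EE (s * ms d L) δ (fun ω => AA δ (ed ∘ σ) 0 (ms d L) F (gp (ed ∘ σ) ω (s * ms d L))) -
          stirExp J (s * δ + δ) F =
          (EE (s * ms d L) δ (fun ω => AA δ (ed ∘ σ) 0 (ms d L) F (gp (ed ∘ σ) ω (s * ms d L))) -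
            stirExp J (s * δ) (AA δ (ed ∘ σ) 0 (ms d L) F)) +
          (stirExp J (s * δ) (AA δ (ed ∘ σ) 0 (ms d L) F) - stirExp J (s * δ) F -
            δ * stirExp J (s * δ) (GF J F)) -
          (stirExp J (s * δ + δ) F - stirExp J (s * δ) F - δ * stirExp J (s * δ) (GF J F)) := by
        ring
      rw [e4]
      refine (abs_sub _ _).trans ?_
      refine (add_le_add (abs_add_le _ _) le_rfl).trans ?_
      push_cast
      have e5 : C₁ * δ ^ 2 = 4 * totalRate J ^ 2 * 1 * δ ^ 2 + 2 * (ms d L : ℝ) ^ 2 * δ ^ 2 * 1 := by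
        rw [hC₁]; ring
      linarith
  have fin : ∀ (q : ℕ), 1 ≤ q → ∀ δ : ℝ, 0 ≤ δ → δ * q ≤ 2 → ∀ s : ℕ, s ≤ K * q →
      (s : ℝ) * (C₁ * δ ^ 2) ≤ (4 * K * C₁) / q := by
    intro q hq δ h0 h2 s hs
    have hq' : (0 : ℝ) < q := by exact_mod_cast hq
    rw [le_div_iff₀ hq']
    have h3 : (s : ℝ) ≤ K * q := by exact_mod_cast hs
    have h4 : (s : ℝ) * (C₁ * δ ^ 2) * q ≤ (K * q) * (C₁ * δ ^ 2) * q := by
      refine mul_le_mul_of_nonneg_right (mul_le_mul_of_nonneg_right h3 (by positivity)) hq'.le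
    have h5 : (δ * q) ^ 2 ≤ 4 := by
      have : 0 ≤ δ * q := by positivity
      nlinarith
    have h6 : (K * q) * (C₁ * δ ^ 2) * q = K * C₁ * (δ * q) ^ 2 := by ring
    have h7 : (K : ℝ) * C₁ * (δ * q) ^ 2 ≤ K * C₁ * 4 := by
      refine mul_le_mul_of_nonneg_left h5 (by positivity)
    rw [h6] at h4
    linarith
  refine ⟨4 * K * C₁, fun q hq σ hσ δ h0 h1 h2 s hs => ⟨fun F hF => ?_, fun x y => ?_⟩⟩
  · exact (key q σ hσ δ h0 h1 s F hF).trans (fin q hq δ h0 h2 s hs)
  · have h3 := key q σ hσ δ h0 h1 s (fun g => if g x = y then 1 else 0)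
      (fun g => by split_ifs <;> simp)
    rw [EE_PP] at h3
    exact h3.trans (fin q hq δ h0 h2 s hs)

end torus

end Pool.Agent.Q297.LC
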