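import Pool.Agent.Q297.LC.LocA
import Pool.Agent.Q68.LC.Bas3

/-!
# Project LC, job LOC (helper297): short cycles do not see the size of the torus
-/

set_option autoImplicit false

namespace Pool.Agent.Q297.LC

open Finset Equiv Matrix Q292.LC

section gen

lemma gp_succ_apply {V : Type} [DecidableEq V] (e : ℕ → V × V) (ω : ℕ → Bool) (k : ℕ) (x : V) :
    gp e ω (k + 1) x = if ω k = true then swap (e k).1 (e k).2 (gp e ω k x) else gp e ω k x := by
  rw [gp]
  split_ifs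
  · rfl
  · rfl

variable {V : Type} [DecidableEq V] [Fintype V]

lemma pow_mod_apply (g : Perm V) (x : V) (m : ℕ) (h : (g ^ m) x = x) (i : ℕ) :
    (g ^ i) x = (g ^ (i % m)) x := by
  have h1 : ∀ q : ℕ, (g ^ (m * q)) x = x := by
    intro q
    induction q with
    | zero => simp
    | succ q ih => rw [Nat.mul_succ, pow_add, Perm.mul_apply, h, ih]
  conv_lhs => rw [← Nat.mod_add_div i m]
  rw [pow_add, Perm.mul_apply, h1]

lemma card_cyc_le (g : Perm V) (x : V) (m : ℕ) (hm : 1 ≤ m) (h : (g ^ m) x = x) :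
    (cyc g x).card ≤ m := by
  have h1 : cyc g x ⊆ (Finset.range m).image fun i => (g ^ i) x := by
    intro y hy
    unfold cyc at hy
    have h2 := (Finset.mem_filter.1 hy).2
    obtain ⟨i, -, hi⟩ := h2.exists_pow_eq'
    refine Finset.mem_image.2 ⟨i % m, Finset.mem_range.2 (Nat.mod_lt _ hm), ?_⟩
    rw [← pow_mod_apply g x m h i, hi]
  exact (Finset.card_le_card h1).trans (Finset.card_image_le.trans (by rw [Finset.card_range]))

lemma exists_ret (g : Perm V) (x : V) : ∃ m, 1 ≤ m ∧ m ≤ (cyc g x).card ∧ (g ^ m) x = x := by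
  have hlt : (cyc g x).card < (Finset.range ((cyc g x).card + 1)).card := by
    rw [Finset.card_range]; omega
  have hmap : ∀ i ∈ Finset.range ((cyc g x).card + 1), (g ^ i) x ∈ cyc g x := by
    intro i _
    unfold cyc
    exact Finset.mem_filter.2 ⟨Finset.mem_univ _, ⟨(i : ℤ), by rw [zpow_natCast]⟩⟩
  obtain ⟨i, hi, j, hj, hij, h⟩ := Finset.exists_ne_map_eq_of_card_lt_of_maps_to hlt hmap
  rw [Finset.mem_range] at hi hj
  have key : ∀ a b : ℕ, a < b → b < (cyc g x).card + 1 → (g ^ a) x = (g ^ b) x →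
      ∃ m, 1 ≤ m ∧ m ≤ (cyc g x).card ∧ (g ^ m) x = x := by
    intro a b hab hb h
    refine ⟨b - a, by omega, by omega, ?_⟩
    have e1 : b = a + (b - a) := by omega
    rw [e1, pow_add, Perm.mul_apply] at h
    exact ((g ^ a).injective h).symm
  rcases lt_or_gt_of_ne hij with h1 | h1
  · exact key i j h1 hj h
  · exact key j i h1 hi h.symm

end gen

section main

variable {d R s₁ L : ℕ} {pz : ℕ → (Fin d → ℤ) × Fin d}

lemma swap_in {a b y : Fin d → ℤ} {N : ℕ} (ha : nrm a ≤ N) (hb : nrm b ≤ N) (hy : nrm y ≤ N) :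
    nrm (swap a b y) ≤ N := by
  rw [Equiv.swap_apply_def]
  split_ifs
  · exact hb
  · exact ha
  · exact hy

lemma inv_In (hp : PZ d R s₁ pz) (ω : ℕ → Bool) {x : Fin d → ℤ} (hx : nrm x ≤ R + 1) (k : ℕ) :
    nrm (gp (up ∘ pz) ω k x) ≤ R + 1 := by
  induction k with
  | zero => exact hx
  | succ k ih =>
    rw [gp_succ_apply]
    split_ifs
    · exact swap_in (hp.mem k).1 (hp.mem k).2 ih
    · exact ih

lemma cst_swap (hL : 4 * R + 8 ≤ L) {a b y : Fin d → ℤ} (ha : nrm a ≤ R + 1) (hb : nrm b ≤ R + 1)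
    (hy : nrm y ≤ R + 1) : swap (cst L a) (cst L b) (cst L y) = cst L (swap a b y) := by
  rw [Equiv.swap_apply_def, Equiv.swap_apply_def]
  by_cases h1 : y = a
  · rw [if_pos (congrArg _ h1), if_pos h1]
  · rw [if_neg (fun h => h1 (cst_inj hL hy ha h)), if_neg h1]
    by_cases h2 : y = b
    · rw [if_pos (congrArg _ h2), if_pos h2]
    · rw [if_neg (fun h => h2 (cst_inj hL hy hb h)), if_neg h2]

variable [NeZero L] {σ : ℕ → (Fin d → ZMod L) × Fin d}

/-- the coins of the inner steps -/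
def red (d L s s₁ : ℕ) (ω : ℕ → Bool) : ℕ → Bool :=
  fun k => if k < s * s₁ then ω (k / s₁ * ms d L + k % s₁) else false

lemma sig_mod (hσ : Per σ) (k : ℕ) : σ (k % ms d L) = σ k := by
  have h := Pool.Agent.Q151.LC.sig_per hσ (k / ms d L) (k % ms d L)
  rw [← h]
  congr 1
  rw [Nat.mul_comm]
  exact Nat.mod_add_div _ _

lemma ms_pos (hp : PZ d R s₁ pz) (hσ : SG d L s₁ pz σ) : 0 < ms d L := lt_of_lt_of_le hp.pos hσ.le

lemma no_touch (hp : PZ d R s₁ pz) (hσ : SG d L s₁ pz σ) {y : Fin d → ℤ}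
    (hy : nrm y ≤ R) {k : ℕ} (hk : s₁ ≤ k % ms d L) :
    cst L y ≠ (ed (σ k)).1 ∧ cst L y ≠ (ed (σ k)).2 := by
  have hM := ms_pos hp hσ
  have key : ∀ (p : (Fin d → ℤ) × Fin d), nrm p.1 ≤ R + 1 → nrm (up p).2 ≤ R + 1 →
      σ k = (cst L p.1, p.2) → False := by
    intro p h1 h2 h3
    obtain ⟨j, hj, hjp⟩ := hp.surj p h1 h2
    have h4 := hσ.eq j hj
    rw [hjp, ← h3, ← sig_mod hσ.per k] at h4
    have h5 := hσ.per.2.injOn (Set.mem_Iio.2 (lt_of_lt_of_le hj hσ.le))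
      (Set.mem_Iio.2 (Nat.mod_lt k hM)) h4
    omega
  constructor
  · intro h
    refine key (y, (σ k).2) (by simp only; omega) ?_ ?_
    · have := nrm_up y (σ k).2
      exact this.trans (by omega)
    · have h1 : (ed (σ k)).1 = (σ k).1 := rfl
      rw [h1] at h
      rw [h]
  · intro h
    have h1 : (ed (σ k)).2 = Function.update (σ k).1 (σ k).2 ((σ k).1 (σ k).2 + 1) := rfl
    rw [h1] at h
    refine key (Function.update y (σ k).2 (y (σ k).2 - 1), (σ k).2) ?_ ?_ ?_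
    · exact (nrm_down y _).trans (by omega)
    · have h2 : (up (Function.update y (σ k).2 (y (σ k).2 - 1), (σ k).2)).2 = y := by
        unfold up
        simp
      rw [h2]; omega
    · refine Prod.ext ?_ rfl
      simp only
      rw [cst_update, h]
      have h3 := congrFun h (σ k).2
      rw [Function.update_self] at h3
      have h4 : (y (σ k).2 : ZMod L) = (σ k).1 (σ k).2 + 1 := h3
      rw [Function.update_idem]
      push_cast
      rw [h4]
      simp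

/-- the trajectories in the torus are the images of those of the reduced circuit -/
lemma follow (hp : PZ d R s₁ pz) (hσ : SG d L s₁ pz σ) (hL : 4 * R + 8 ≤ L) (s : ℕ)
    (ω : ℕ → Bool) (x : Fin d → ℤ) (N : ℕ) (hN : N ≤ s * ms d L)
    (hc : ∀ k < N, nrm (gp (up ∘ pz) (red d L s s₁ ω) (cnt (ms d L) s₁ k) x) ≤ R) :
    ∀ k ≤ N, gp (ed ∘ σ) ω k (cst L x) =
      cst L (gp (up ∘ pz) (red d L s s₁ ω) (cnt (ms d L) s₁ k) x) := by
  have hM := ms_pos hp hσ
  intro k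
  induction k with
  | zero =>
    intro _
    rw [cnt_zero hM hσ.le]
    rfl
  | succ k ih =>
    intro hk
    have ih' := ih (by omega)
    have hy := hc k (by omega)
    rw [gp_succ_apply, ih']
    rcases lt_or_ge (k % ms d L) s₁ with h | h
    · obtain ⟨c1, c2, c3⟩ := cnt_in hM hp.pos hσ.le h
      have c4 := cnt_lt hM hp.pos hσ.le (show k < s * ms d L by omega) h
      rw [c1, gp_succ_apply]
      have h1 : red d L s s₁ ω (cnt (ms d L) s₁ k) = ω k := by
        unfold red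
        rw [if_pos c4, c2]
      have h2 : (ed ∘ σ) k = (cst L ((up ∘ pz) (cnt (ms d L) s₁ k)).1,
          cst L ((up ∘ pz) (cnt (ms d L) s₁ k)).2) := by
        simp only [Function.comp_apply]
        rw [← sig_mod hσ.per k, hσ.eq _ h, ed_cst, ← hp.per (cnt (ms d L) s₁ k), c3]
      rw [h1, h2]
      split_ifs
      · exact cst_swap hL (hp.mem _).1 (hp.mem _).2 (by omega)
      · rfl
    · rw [cnt_out hM hσ.le h]
      obtain ⟨n1, n2⟩ := no_touch hp hσ hy h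
      split_ifs
      · exact swap_apply_of_ne_of_ne n1 n2
      · rfl

lemma follow2 (hp : PZ d R s₁ pz) (hσ : SG d L s₁ pz σ) (hL : 4 * R + 8 ≤ L) (s : ℕ)
    (ω : ℕ → Bool) (x : Fin d → ℤ) (hx : nrm x ≤ R + 1)
    (hc : ∀ k ≤ s * ms d L, td 0 (gp (ed ∘ σ) ω k (cst L x)) ≤ R) :
    ∀ k ≤ s * ms d L, nrm (gp (up ∘ pz) (red d L s s₁ ω) (cnt (ms d L) s₁ k) x) ≤ R := by
  intro k
  induction k using Nat.strong_induction_on with
  | _ k ih =>
    intro hk
    have h1 := follow hp hσ hL s ω x k hk (fun j hj => ih j hj (by omega)) k le_rfl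
    have h2 := hc k hk
    rw [h1, td_cst hL (inv_In hp _ hx _)] at h2
    exact h2

/-- the event for the reduced circuit -/
def Evt (pz : ℕ → (Fin d → ℤ) × Fin d) (R N n : ℕ) (ω : ℕ → Bool) : Prop :=
  ∃ m, 1 ≤ m ∧ m ≤ n ∧ ((gp (up ∘ pz) ω N) ^ m) 0 = 0 ∧
    ∀ i < m, ∀ k ≤ N, nrm (gp (up ∘ pz) ω k (((gp (up ∘ pz) ω N) ^ i) 0)) ≤ R

lemma cst_zero : cst L (0 : Fin d → ℤ) = 0 := by
  funext i
  simp [cst]

lemma back (hp : PZ d R s₁ pz) (hσ : SG d L s₁ pz σ) (hL : 4 * R + 8 ≤ L) (s n : ℕ)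
    (ω : ℕ → Bool) (h : Evt pz R (s * s₁) n (red d L s s₁ ω)) :
    (cyc (gp (ed ∘ σ) ω (s * ms d L)) 0).card ≤ n := by
  have hM := ms_pos hp hσ
  obtain ⟨m, h1, h2, h3, h4⟩ := h
  have key : ∀ i ≤ m, ((gp (ed ∘ σ) ω (s * ms d L)) ^ i) 0 =
      cst L (((gp (up ∘ pz) (red d L s s₁ ω) (s * s₁)) ^ i) 0) := by
    intro i
    induction i with
    | zero => intro _; simp [cst_zero]
    | succ i ih =>
      intro hi
      have ih' := ih (by omega)
      have h5 := follow hp hσ hL s ω (((gp (up ∘ pz) (red d L s s₁ ω) (s * s₁)) ^ i) 0)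
        (s * ms d L) le_rfl (fun k hk => h4 i (by omega) _ (by
          rw [← cnt_mul hM hσ.le s]
          exact cnt_mono hM hp.pos hσ.le hk.le)) (s * ms d L) le_rfl
      rw [cnt_mul hM hσ.le] at h5
      rw [pow_succ', pow_succ', Perm.mul_apply, Perm.mul_apply, ih', h5]
  have h6 := key m le_rfl
  rw [h3, cst_zero] at h6
  exact (card_cyc_le _ _ m h1 h6).trans h2

lemma fwd (hp : PZ d R s₁ pz) (hσ : SG d L s₁ pz σ) (hL : 4 * R + 8 ≤ L) (s n D : ℕ)
    (ω : ℕ → Bool) (hn : n * D ≤ R) (hc : (cyc (gp (ed ∘ σ) ω (s * ms d L)) 0).card ≤ n)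
    (hj : ∀ y ∈ bal (0 : Fin d → ZMod L) R, jumps (ed ∘ σ) ω 0 (s * ms d L) y ≤ D) :
    Evt pz R (s * s₁) n (red d L s s₁ ω) := by
  have hM := ms_pos hp hσ
  obtain ⟨m, h1, h2, h3⟩ := exists_ret (gp (ed ∘ σ) ω (s * ms d L)) 0
  have hmn : m ≤ n := h2.trans hc
  set g := gp (ed ∘ σ) ω (s * ms d L) with hg
  set g' := gp (up ∘ pz) (red d L s s₁ ω) (s * s₁) with hg'
  -- distances along the trajectories
  have hA : ∀ i < m, td 0 ((g ^ i) 0) ≤ i * D → ∀ k ≤ s * ms d L,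
      td 0 (gp (ed ∘ σ) ω k ((g ^ i) 0)) ≤ (i + 1) * D := by
    intro i hi hd k hk
    have h4 : (i : ℕ) * D ≤ n * D := Nat.mul_le_mul_right _ (by omega)
    have h5 : (g ^ i) 0 ∈ bal (0 : Fin d → ZMod L) R :=
      Pool.Agent.Q151.LC.mem_bal.2 (by omega)
    have h6 := hj _ h5
    have h7 := Pool.Agent.Q151.LC.td_jumps σ ω 0 k ((g ^ i) 0)
    rw [zero_add] at h7
    have h8 := Pool.Agent.Q151.LC.jumps_mono (ed ∘ σ) ω ((g ^ i) 0) (i := 0) (j := k) (i' := 0)
      (j' := s * ms d L) le_rfl hk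
    have h9 : gp (ed ∘ σ) ω 0 ((g ^ i) 0) = (g ^ i) 0 := rfl
    rw [h9, Pool.Agent.Q151.LC.td_comm] at h7
    have h10 := Pool.Agent.Q151.LC.td_tri 0 ((g ^ i) 0) (gp (ed ∘ σ) ω k ((g ^ i) 0))
    have h11 : (i + 1) * D = i * D + D := by ring
    omega
  have hB : ∀ i ≤ m, td 0 ((g ^ i) 0) ≤ i * D := by
    intro i
    induction i with
    | zero =>
      intro _
      rw [pow_zero, Perm.one_apply, Pool.Agent.Q151.LC.td_self]
      exact Nat.zero_le _
    | succ i ih =>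
      intro hi
      have h4 := hA i (by omega) (ih (by omega)) (s * ms d L) le_rfl
      rw [pow_succ', Perm.mul_apply]
      exact h4
  -- lift to the reduced circuit
  have hC : ∀ i ≤ m, (g ^ i) 0 = cst L ((g' ^ i) 0) ∧ nrm ((g' ^ i) 0) ≤ R + 1 ∧
      (i < m → ∀ k ≤ s * s₁, nrm (gp (up ∘ pz) (red d L s s₁ ω) k ((g' ^ i) 0)) ≤ R) := by
    have step : ∀ i ≤ m, (g ^ i) 0 = cst L ((g' ^ i) 0) → nrm ((g' ^ i) 0) ≤ R + 1 → i < m →
        ∀ k ≤ s * ms d L, nrm (gp (up ∘ pz) (red d L s s₁ ω) (cnt (ms d L) s₁ k)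
          ((g' ^ i) 0)) ≤ R := by
      intro i hi h4 h5 h6
      refine follow2 hp hσ hL s ω _ h5 fun k hk => ?_
      rw [← h4]
      have h7 := hA i h6 (hB i hi) k hk
      have h8 : (i + 1) * D ≤ n * D := Nat.mul_le_mul_right _ (by omega)
      omega
    have step2 : ∀ i ≤ m, (g ^ i) 0 = cst L ((g' ^ i) 0) → nrm ((g' ^ i) 0) ≤ R + 1 → i < m →
        ∀ k ≤ s * s₁, nrm (gp (up ∘ pz) (red d L s s₁ ω) k ((g' ^ i) 0)) ≤ R := by
      intro i hi h4 h5 h6 k hk
      rw [← cnt_mul hM hσ.le s] at hk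
      obtain ⟨k', hk', rfl⟩ := cnt_surj hM hp.pos hσ.le (s * ms d L) k hk
      exact step i hi h4 h5 h6 k' hk'
    intro i
    induction i with
    | zero =>
      intro hi
      have e1 : (g ^ 0) 0 = cst L ((g' ^ 0) 0) := by
        rw [pow_zero, pow_zero, Perm.one_apply, Perm.one_apply, cst_zero]
      have e2 : nrm ((g' ^ 0) 0) ≤ R + 1 := by
        rw [pow_zero, Perm.one_apply, nrm_zero]; omega
      exact ⟨e1, e2, step2 0 hi e1 e2⟩
    | succ i ih =>
      intro hi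
      obtain ⟨e1, e2, e3⟩ := ih (by omega)
      have h4 := step i (by omega) e1 e2 (by omega)
      have h5 := follow hp hσ hL s ω ((g' ^ i) 0) (s * ms d L) le_rfl
        (fun k hk => h4 k hk.le) (s * ms d L) le_rfl
      rw [cnt_mul hM hσ.le] at h5
      have e4 : (g ^ (i + 1)) 0 = cst L ((g' ^ (i + 1)) 0) := by
        rw [pow_succ', pow_succ', Perm.mul_apply, Perm.mul_apply, e1, hg, h5]
      have e5 : nrm ((g' ^ (i + 1)) 0) ≤ R + 1 := by
        rw [pow_succ', Perm.mul_apply]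
        exact inv_In hp _ e2 _
      exact ⟨e4, e5, step2 (i + 1) hi e4 e5⟩
  refine ⟨m, h1, hmn, ?_, fun i hi => (hC i hi.le).2.2 hi⟩
  obtain ⟨e1, e2, -⟩ := hC m le_rfl
  rw [h3, ← cst_zero] at e1
  exact (cst_inj hL (by rw [nrm_zero]; omega) e2 e1).symm

end main

lemma red_lt {M s₁ s k : ℕ} (h0 : 0 < s₁) (hs : s₁ ≤ M) (hk : k < s * s₁) :
    k / s₁ * M + k % s₁ < s * M := by
  have h1 : k / s₁ < s := Nat.div_lt_of_lt_mul (by rwa [Nat.mul_comm])
  have h2 : k % s₁ < s₁ := Nat.mod_lt _ h0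
  have h3 : (k / s₁ + 1) * M ≤ s * M := Nat.mul_le_mul_right _ h1
  have h4 : (k / s₁ + 1) * M = k / s₁ * M + M := by ring
  omega

lemma red_inj {M s₁ : ℕ} (h0 : 0 < s₁) (hs : s₁ ≤ M) :
    Function.Injective (fun k : ℕ => k / s₁ * M + k % s₁) := by
  intro a b hab
  have hM : 0 < M := lt_of_lt_of_le h0 hs
  have hab' : a / s₁ * M + a % s₁ = b / s₁ * M + b % s₁ := hab
  have ha : a % s₁ < M := lt_of_lt_of_le (Nat.mod_lt _ h0) hs
  have hb : b % s₁ < M := lt_of_lt_of_le (Nat.mod_lt _ h0) hs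
  have d1 : (a / s₁ * M + a % s₁) / M = a / s₁ := by
    rw [Nat.add_comm, Nat.add_mul_div_right _ _ hM, Nat.div_eq_of_lt ha, zero_add]
  have d2 : (b / s₁ * M + b % s₁) / M = b / s₁ := by
    rw [Nat.add_comm, Nat.add_mul_div_right _ _ hM, Nat.div_eq_of_lt hb, zero_add]
  have e1 : a / s₁ = b / s₁ := by rw [← d1, ← d2, hab']
  rw [e1] at hab'
  have e2 : a % s₁ = b % s₁ := by omega
  rw [← Nat.div_add_mod a s₁, ← Nat.div_add_mod b s₁, e1, e2]

open Classical in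
theorem loc : S_LOC := by
  intro d L L₀ R₀ _ _ hd h1 h2
  obtain ⟨s₁, pz, hp⟩ := exists_PZ d R₀ hd
  have hL : 4 * R₀ + 8 ≤ L := by omega
  obtain ⟨σ, hσ⟩ := exists_SG hd hp L hL
  obtain ⟨σ₀, hσ₀⟩ := exists_SG hd hp L₀ h1
  refine ⟨σ, σ₀, hσ.per, hσ₀.per, fun s n D δ h0 hδ hn => ?_⟩
  set F : (ℕ → Bool) → ℝ := fun ω => if Evt pz R₀ (s * s₁) n ω then 1 else 0 with hF
  have e1 : EE (s * ms d L) δ (fun ω => F (red d L s s₁ ω)) = EE (s * s₁) δ F :=
    mrg (s * ms d L) (s * s₁) (fun k => k / s₁ * ms d L + k % s₁) δ F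
      (fun k hk => red_lt hp.pos hσ.le hk) (red_inj hp.pos hσ.le).injOn
  have e2 : EE (s * ms d L₀) δ (fun ω => F (red d L₀ s s₁ ω)) = EE (s * s₁) δ F :=
    mrg (s * ms d L₀) (s * s₁) (fun k => k / s₁ * ms d L₀ + k % s₁) δ F
      (fun k hk => red_lt hp.pos hσ₀.le hk) (red_inj hp.pos hσ₀.le).injOn
  have i1 : EE (s * ms d L₀) δ (fun ω => F (red d L₀ s s₁ ω)) ≤
      EE (s * ms d L₀) δ (fun ω =>
        if (cyc (gp (ed ∘ σ₀) ω (s * ms d L₀)) 0).card ≤ n then 1 else 0) := by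
    refine Pool.Agent.Q68.LC.EE_mono h0 hδ fun ω => ?_
    rw [hF]
    simp only
    by_cases h : Evt pz R₀ (s * s₁) n (red d L₀ s s₁ ω)
    · rw [if_pos h, if_pos (back hp hσ₀ h1 s n ω h)]
    · rw [if_neg h]
      split_ifs <;> norm_num
  have i2 : EE (s * ms d L) δ (fun ω =>
        if (cyc (gp (ed ∘ σ) ω (s * ms d L)) 0).card ≤ n then 1 else 0) ≤
      EE (s * ms d L) δ (fun ω => F (red d L s s₁ ω) +
        (if ∃ y ∈ bal (0 : Fin d → ZMod L) R₀, D < jumps (ed ∘ σ) ω 0 (s * ms d L) y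
          then 1 else 0)) := by
    refine Pool.Agent.Q68.LC.EE_mono h0 hδ fun ω => ?_
    rw [hF]
    simp only
    by_cases h : (cyc (gp (ed ∘ σ) ω (s * ms d L)) 0).card ≤ n
    · rw [if_pos h]
      by_cases h' : ∃ y ∈ bal (0 : Fin d → ZMod L) R₀, D < jumps (ed ∘ σ) ω 0 (s * ms d L) y
      · rw [if_pos h']
        split_ifs <;> norm_num
      · rw [if_neg h', if_pos]
        · norm_num
        · push Not at h'
          exact fwd hp hσ hL s n D ω hn h h'
    · rw [if_neg h]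
      split_ifs <;> norm_num
  rw [Pool.Agent.Q68.LC.EE_add, e1, ← e2] at i2
  exact i2.trans (by linarith)

end Pool.Agent.Q297.LC
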