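import Pool.Agent.Q297.LC.Lim
import Pool.Agent.Q297.LC.Loc
import Pool.Agent.Q277.LC.Ex
import Pool.Agent.Y998.CN.Tor

/-!
# Project LC, job LCS (helper297): short cycles of stirring do not see the size of the torus
-/

set_option autoImplicit false

namespace Pool.Agent.Q297.LC

open Finset Equiv Matrix Q292.LC
open Pool.Agent.Y998.ST (stirExp nnRate qq stirLaw totalRate)

lemma card_cyc {V : Type} [Fintype V] [DecidableEq V] (g : Perm V) (v : V) :
    (cyc g v).card = Pool.Agent.Y998.ST.cycleLen g v := by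
  unfold cyc Pool.Agent.Y998.ST.cycleLen
  rw [Nat.card_eq_fintype_card, Fintype.card_subtype]

lemma cyc_trans {d L : ℕ} [NeZero L] (t : ℝ) (n : ℕ) (x : Fin d → ZMod L) :
    stirExp (nnRate d L) t (fun g => if (cyc g x).card ≤ n then 1 else 0) =
      stirExp (nnRate d L) t (fun g => if (cyc g 0).card ≤ n then 1 else 0) := by
  unfold stirExp
  rw [← Equiv.sum_comp (MulAut.conj (Equiv.addRight x)).toEquiv]
  refine Finset.sum_congr rfl fun g _ => ?_
  have e1 : (MulAut.conj (Equiv.addRight x)).toEquiv g =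
    Equiv.addRight x * g * (Equiv.addRight x)⁻¹ := rfl
  rw [e1, Pool.Agent.Y998.CN.law_conj (Equiv.addRight x)
    (fun a b => Pool.Agent.Y998.CN.nn_trans a b x)]
  have e2 : (cyc (Equiv.addRight x * g * (Equiv.addRight x)⁻¹) x).card = (cyc g 0).card := by
    have e3 : Equiv.addRight x (0 : Fin d → ZMod L) = x := by
      rw [Equiv.coe_addRight]; simp
    rw [card_cyc, card_cyc]
    have := Pool.Agent.Y998.CN.len_conj (Equiv.addRight x) g (0 : Fin d → ZMod L)
    rw [e3] at this
    exact this
  beta_reduce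
  rw [e2]

lemma jumps_units {V : Type} [DecidableEq V] (e : ℕ → V × V) (ω : ℕ → Bool) (u : ℕ) (y : V)
    (ρ : ℕ) (K : ℕ) (h : ∀ j < K, jumps e ω (j * u) ((j + 1) * u) y ≤ ρ) :
    jumps e ω 0 (K * u) y ≤ K * ρ := by
  induction K with
  | zero =>
    rw [zero_mul, zero_mul]
    unfold jumps
    simp
  | succ K ih =>
    rw [Pool.Agent.Q151.LC.jumps_add e ω y (Nat.zero_le (K * u))
      (Nat.mul_le_mul_right u (Nat.le_succ K))]
    have h1 := ih fun j hj => h j (by omega)
    have h2 := h K (by omega)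
    exact (Nat.add_le_add h1 h2).trans (le_of_eq (Nat.succ_mul K ρ).symm)

open Classical in
theorem lcs (hJ : S_JMP) : S_LCS := by
  intro d hd
  obtain ⟨Cj, hCj, hJ⟩ := hJ d hd
  refine ⟨Cj * Real.exp 1, ?_, fun L L₀ R₀ _ _ h1 h2 t n D ht hn x x₀ => ?_⟩
  · have : (1 : ℝ) ≤ Real.exp 1 := Real.one_le_exp (by norm_num)
    nlinarith
  rw [cyc_trans t n x, cyc_trans t n x₀]
  have hL₀3 : 3 ≤ L₀ := by omega
  have hL3 : 3 ≤ L := by omega
  set K := ⌊t⌋₊ with hK
  have hKt : (K : ℝ) ≤ t := Nat.floor_le (by linarith)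
  have hK1 : 1 ≤ K := Nat.le_floor (by rw [Nat.cast_one]; exact ht)
  have hK1' : (1 : ℝ) ≤ K := by exact_mod_cast hK1
  have hKpos : (0 : ℝ) < K := by linarith
  have htK : t < K + 1 := Nat.lt_floor_add_one t
  have ht2K : t ≤ 2 * K := by linarith
  obtain ⟨σ, σ₀, hσ, hσ₀, hloc⟩ := loc d L L₀ R₀ hd h1 h2
  obtain ⟨CL, hCL⟩ := tro d L hd hL3 K
  obtain ⟨CL₀, hCL₀⟩ := tro d L₀ hd hL₀3 K
  set B : ℝ := (2 * R₀ + 1) ^ d * t * (Cj * (Real.exp 1 * Real.exp (-(D / t)))) with hB
  -- the bound for the circuits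
  have hq : ∀ q : ℕ, 2 ≤ q → 2 * Cj ≤ q →
      stirExp (nnRate d L) t (fun g => if (cyc g 0).card ≤ n then 1 else 0) ≤
        stirExp (nnRate d L₀) t (fun g => if (cyc g 0).card ≤ n then 1 else 0) + B +
          (CL + CL₀) / q := by
    intro q hq2 hqC
    have hq' : (0 : ℝ) < q := by
      have : 0 < q := by omega
      exact_mod_cast this
    have hδq : t / (K * q) * q = t / K := by field_simp
    have a2 : t / (K * q) * q ≤ 2 := by
      rw [hδq, div_le_iff₀ hKpos]; linarith
    have a0 : 0 < t / (K * q) := by positivity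
    have hq2' : (2 : ℝ) ≤ q := by exact_mod_cast hq2
    have a3 : t / (K * q) ≤ 1 := by
      rw [div_le_one (by positivity)]
      nlinarith
    have a4 : Cj * (t / (K * q)) ≤ 1 := by
      have : Cj * (t / (K * q)) = Cj * t / (K * q) := by ring
      rw [this, div_le_one (by positivity)]
      nlinarith
    set δ : ℝ := t / (K * q) with hδ
    have a6 : ((K * q : ℕ) : ℝ) * δ = t := by
      rw [hδ]; push_cast; field_simp
    have b1 := (hCL q (by omega) σ hσ δ a0.le a3 a2 (K * q) le_rfl).1
      (fun g => if (cyc g 0).card ≤ n then 1 else 0) (fun g => by split_ifs <;> norm_num)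
    have b2 := (hCL₀ q (by omega) σ₀ hσ₀ δ a0.le a3 a2 (K * q) le_rfl).1
      (fun g => if (cyc g 0).card ≤ n then 1 else 0) (fun g => by split_ifs <;> norm_num)
    rw [a6] at b1 b2
    have b3 := hloc (K * q) n D δ a0.le a3 hn
    -- the jumps
    have b4 : EE (K * q * ms d L) δ (fun ω => if ∃ y ∈ bal (0 : Fin d → ZMod L) R₀,
        D < jumps (ed ∘ σ) ω 0 (K * q * ms d L) y then (1 : ℝ) else 0) ≤ B := by
      have c1 : ∀ ω : ℕ → Bool, (if ∃ y ∈ bal (0 : Fin d → ZMod L) R₀,
          D < jumps (ed ∘ σ) ω 0 (K * q * ms d L) y then (1 : ℝ) else 0) ≤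
          ∑ p ∈ bal (0 : Fin d → ZMod L) R₀ ×ˢ Finset.range K,
            (if D / K < jumps (ed ∘ σ) ω (p.2 * (q * ms d L)) ((p.2 + 1) * (q * ms d L)) p.1
              then (1 : ℝ) else 0) := by
        intro ω
        split_ifs with h
        · obtain ⟨y, hy, hyD⟩ := h
          have c2 : ∃ j < K, D / K < jumps (ed ∘ σ) ω (j * (q * ms d L))
              ((j + 1) * (q * ms d L)) y := by
            by_contra hcon
            push Not at hcon
            have c3 := jumps_units (ed ∘ σ) ω (q * ms d L) y (D / K) K hcon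
            have c4 : K * (D / K) ≤ D := Nat.mul_div_le D K
            rw [← Nat.mul_assoc] at c3
            omega
          obtain ⟨j, hj, hjD⟩ := c2
          have c5 := Finset.single_le_sum (f := fun p : (Fin d → ZMod L) × ℕ =>
            (if D / K < jumps (ed ∘ σ) ω (p.2 * (q * ms d L)) ((p.2 + 1) * (q * ms d L)) p.1
              then (1 : ℝ) else 0)) (s := bal (0 : Fin d → ZMod L) R₀ ×ˢ Finset.range K)
            (fun p _ => by split_ifs <;> norm_num) (a := (y, j))
            (Finset.mem_product.2 ⟨hy, Finset.mem_range.2 hj⟩)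
          simp only [if_pos hjD] at c5
          exact c5
        · exact Finset.sum_nonneg fun p _ => by split_ifs <;> norm_num
      refine (Pool.Agent.Q68.LC.EE_mono a0.le a3 c1).trans ?_
      rw [Pool.Agent.Q277.LC.EE_sum]
      have c6 : ∀ p ∈ bal (0 : Fin d → ZMod L) R₀ ×ˢ Finset.range K,
          EE (K * q * ms d L) δ (fun ω => if D / K < jumps (ed ∘ σ) ω (p.2 * (q * ms d L))
            ((p.2 + 1) * (q * ms d L)) p.1 then (1 : ℝ) else 0) ≤
            Cj * (Real.exp 1 * Real.exp (-(D / t))) := by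
        intro p hp
        have hpK := Finset.mem_range.1 (Finset.mem_product.1 hp).2
        have c7 := hJ L hL3 σ hσ q K p.2 (D / K) δ p.1 a0 a4 a2 hpK
        rw [Nat.mul_assoc]
        refine c7.trans (mul_le_mul_of_nonneg_left ?_ (by linarith))
        rw [← Real.exp_add, Real.exp_le_exp]
        have c8 : (D : ℝ) < K * ((D / K : ℕ) : ℝ) + K := by
          have : D < K * (D / K) + K := by
            have e1 := Nat.div_add_mod D K
            have e2 := Nat.mod_lt D hK1
            omega
          exact_mod_cast this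
        have c9 : (D : ℝ) / K < ((D / K : ℕ) : ℝ) + 1 := by
          rw [div_lt_iff₀ hKpos]; linarith
        have c10 : (D : ℝ) / t ≤ D / K :=
          div_le_div_of_nonneg_left (Nat.cast_nonneg D) hKpos hKt
        linarith
      refine (Finset.sum_le_card_nsmul _ _ _ c6).trans ?_
      rw [Finset.card_product, Finset.card_range, nsmul_eq_mul, hB]
      have c11 : ((bal (0 : Fin d → ZMod L) R₀).card : ℝ) ≤ (2 * R₀ + 1) ^ d := by
        exact_mod_cast Pool.Agent.Q277.LC.card_bal_le (0 : Fin d → ZMod L) R₀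
      push_cast
      refine mul_le_mul_of_nonneg_right ?_ (by positivity)
      exact mul_le_mul c11 hKt (by positivity) (by positivity)
    have b5 := (abs_le.1 b1).1
    have b6 := (abs_le.1 b2).2
    rw [add_div]
    linarith
  have hlim : stirExp (nnRate d L) t (fun g => if (cyc g 0).card ≤ n then 1 else 0) ≤
      stirExp (nnRate d L₀) t (fun g => if (cyc g 0).card ≤ n then 1 else 0) + B := by
    refine le_of_forall_pos_le_add fun ε hε => ?_
    obtain ⟨q₁, hq₁⟩ := exists_nat_gt (|CL + CL₀| / ε)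
    obtain ⟨q₂, hq₂⟩ := exists_nat_gt (2 * Cj)
    set q := max (max 2 q₂) (q₁ + 1) with hqd
    have e1 : (q₂ : ℝ) ≤ q := by
      have : q₂ ≤ q := by omega
      exact_mod_cast this
    have h3 := hq q (by omega) (by linarith)
    refine h3.trans (add_le_add le_rfl ?_)
    have hq' : (q₁ : ℝ) < q := by
      have : q₁ < q := by omega
      exact_mod_cast this
    have hqp : (0 : ℝ) < q := by
      have : 0 < q := by omega
      exact_mod_cast this
    rw [div_le_iff₀ hqp]
    have h4 : |CL + CL₀| < q * ε := by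
      have := hq₁.trans hq'
      rwa [div_lt_iff₀ hε] at this
    linarith [le_abs_self (CL + CL₀)]
  refine hlim.trans (le_of_eq ?_)
  rw [hB]
  ring

end Pool.Agent.Q297.LC
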