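import Pool.Agent.Q297.LC.Tro

/-!
# Project LC (helper297): from circuits to stirring, the limit `q → ∞`
-/

set_option autoImplicit false

namespace Pool.Agent.Q297.LC

open Finset Equiv Matrix Q292.LC
open Pool.Agent.Y998.ST (stirExp nnRate qq stirLaw totalRate)

lemma exists_Per (d L : ℕ) [NeZero L] (hd : 1 ≤ d) :
    ∃ σ : ℕ → (Fin d → ZMod L) × Fin d, Per σ := by
  classical
  have hms : 0 < ms d L := by
    unfold ms
    have : 0 < L := Nat.pos_of_ne_zero (NeZero.ne L)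
    positivity
  have hcard : Fintype.card (Fin (ms d L)) = Fintype.card ((Fin d → ZMod L) × Fin d) := by
    rw [Fintype.card_fin, Fintype.card_prod, Fintype.card_fun, ZMod.card, Fintype.card_fin]
    rfl
  obtain ⟨g⟩ := Fintype.card_eq.1 hcard
  refine ⟨fun k => g ⟨k % ms d L, Nat.mod_lt _ hms⟩, fun k => ?_, fun _ _ => Set.mem_univ _, ?_, ?_⟩
  · simp only [Nat.add_mod_right]
  · intro a ha b hb hab
    have e1 := g.injective hab
    have e2 : a % ms d L = b % ms d L := by simpa using e1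
    rwa [Nat.mod_eq_of_lt ha, Nat.mod_eq_of_lt hb] at e2
  · intro p _
    refine ⟨(g.symm p : ℕ), (g.symm p).2, ?_⟩
    have e1 : (⟨(g.symm p : ℕ) % ms d L, Nat.mod_lt _ hms⟩ : Fin (ms d L)) = g.symm p := by
      apply Fin.ext
      exact Nat.mod_eq_of_lt (g.symm p).2
    simp only [e1, Equiv.apply_symm_apply]

/-- a bound for all circuits with many sweeps per unit passes to stirring -/
lemma stir_le_of_circuit {d L : ℕ} [NeZero L] (hd : 1 ≤ d) (hL : 3 ≤ L) {K : ℕ} {t : ℝ}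
    (hK : 1 ≤ K) (hKt : (K : ℝ) ≤ t) (ht : t ≤ 2 * K) {F : Perm (Fin d → ZMod L) → ℝ}
    (hF : ∀ g, |F g| ≤ 1) {B : ℝ}
    (h : ∃ q₀ : ℕ, ∀ q ≥ q₀, ∀ σ : ℕ → (Fin d → ZMod L) × Fin d, Per σ → ∀ δ : ℝ,
      1 ≤ δ * q → δ * q ≤ 2 →
      EE (K * (q * ms d L)) δ (fun ω => F (gp (ed ∘ σ) ω (K * (q * ms d L)))) ≤ B) :
    stirExp (nnRate d L) t F ≤ B := by
  obtain ⟨q₀, h⟩ := h
  obtain ⟨σ, hσ⟩ := exists_Per d L hd
  obtain ⟨C, hC⟩ := tro d L hd hL K
  have hK' : (0 : ℝ) < K := by exact_mod_cast hK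
  have key : ∀ q : ℕ, q₀ ≤ q → 2 ≤ q → stirExp (nnRate d L) t F ≤ B + C / q := by
    intro q hq hq2
    have hq' : (0 : ℝ) < q := by
      have : 0 < q := by omega
      exact_mod_cast this
    have hδq : t / (K * q) * q = t / K := by field_simp
    have h1 : 1 ≤ t / (K * q) * q := by
      rw [hδq, le_div_iff₀ hK']; linarith
    have h2 : t / (K * q) * q ≤ 2 := by
      rw [hδq, div_le_iff₀ hK']; linarith
    have h0 : 0 ≤ t / (K * q) := by
      have : 0 ≤ t := hK'.le.trans hKt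
      positivity
    have h3 : t / (K * q) ≤ 1 := by
      rw [div_le_one (by positivity)]
      have : (2 : ℝ) ≤ q := by exact_mod_cast hq2
      nlinarith
    have h4 := (hC q (by omega) σ hσ (t / (K * q)) h0 h3 h2 (K * q) le_rfl).1 F hF
    have h5 := h q hq σ hσ (t / (K * q)) h1 h2
    have h6 : ((K * q : ℕ) : ℝ) * (t / (K * q)) = t := by
      push_cast; field_simp
    rw [h6, Nat.mul_assoc] at h4
    have h7 := (abs_le.1 h4).1
    linarith
  refine le_of_forall_pos_le_add fun ε hε => ?_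
  obtain ⟨q₁, hq₁⟩ := exists_nat_gt (|C| / ε)
  have h1 := key (max (max q₀ 2) (q₁ + 1)) (by omega) (by omega)
  refine h1.trans (add_le_add le_rfl ?_)
  set q := max (max q₀ 2) (q₁ + 1) with hq
  have hq' : (q₁ : ℝ) < q := by
    have : q₁ < q := by omega
    exact_mod_cast this
  have hqp : (0 : ℝ) < q := by
    have : 0 < q := by omega
    exact_mod_cast this
  rw [div_le_iff₀ hqp]
  have h2 : |C| < q * ε := by
    have := hq₁.trans hq'
    rwa [div_lt_iff₀ hε] at this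
  linarith [le_abs_self C]

/-- Cycles are long, for stirring. -/
theorem tls (hT : S_TLC) : S_TLS := by
  intro d hd
  obtain ⟨C₁, m₁, hC₁, hT⟩ := hT d hd
  refine ⟨2 * C₁ * ((2 : ℝ) ^ (d / 2 : ℝ) + 2), 2 ^ (m₁ + 1) + m₁ + 1 + (2 ^ d + 1), ?_, ?_⟩
  · have : (0 : ℝ) < (2 : ℝ) ^ (d / 2 : ℝ) := Real.rpow_pos_of_pos (by norm_num) _
    nlinarith
  intro L N _ t hmt hlog hN hNt x
  have pw1 : 0 < 2 ^ (m₁ + 1) := by positivity
  have pw2 : 0 < 2 ^ d := by positivity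
  set m := 2 ^ (m₁ + 1) + m₁ + 1 + (2 ^ d + 1) with hm
  have hLpos : 0 < L := Nat.pos_of_ne_zero (NeZero.ne L)
  have hN' : (1 : ℝ) ≤ N := by exact_mod_cast hN
  have hLd : (0 : ℝ) < (L : ℝ) ^ d := by positivity
  have hm1 : (1 : ℝ) ≤ m := by exact_mod_cast (by omega : 1 ≤ m)
  have ht1 : 1 ≤ t := hm1.trans hmt
  have htL : t ≤ (L : ℝ) ^ d := by nlinarith
  -- the number of units
  set K := ⌊t⌋₊ with hK
  have hKt : (K : ℝ) ≤ t := Nat.floor_le (by linarith)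
  have hK1 : 1 ≤ K := Nat.le_floor (by rw [Nat.cast_one]; exact ht1)
  have hK1' : (1 : ℝ) ≤ K := by exact_mod_cast hK1
  have htK : t < K + 1 := Nat.lt_floor_add_one t
  have ht2K : t ≤ 2 * K := by linarith
  have hL3 : 3 ≤ L := by
    by_contra hcon
    have h1 : L ≤ 2 := by omega
    have h2 : L ^ d ≤ 2 ^ d := Nat.pow_le_pow_left h1 d
    have h3 : (m : ℝ) ≤ (L : ℝ) ^ d := hmt.trans htL
    have h4 : m ≤ L ^ d := by exact_mod_cast h3
    have h5 : 2 ^ d < m := by omega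
    omega
  have hKL : K ≤ L ^ d := by
    have : (K : ℝ) ≤ ((L ^ d : ℕ) : ℝ) := by push_cast; linarith
    exact_mod_cast this
  have hmK : m₁ ≤ K := by
    have h1 : (m₁ : ℝ) + 1 ≤ t := by
      have : m₁ + 1 ≤ m := by omega
      have h2 : ((m₁ + 1 : ℕ) : ℝ) ≤ m := by exact_mod_cast this
      push_cast at h2
      linarith
    have h2 : (m₁ : ℝ) < K + 1 - 1 + 1 := by linarith
    have h3 : (m₁ : ℝ) < (K : ℝ) + 1 := by linarith
    have h4 : m₁ < K + 1 := by exact_mod_cast h3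
    omega
  have hlogK : (Real.log L) ^ m₁ ≤ K := by
    have hℓ : 0 ≤ Real.log L := Real.log_natCast_nonneg L
    have hK2 : t / 2 ≤ K := by linarith
    refine le_trans ?_ hK2
    rcases le_total (Real.log L) 2 with h | h
    · have h1 : (Real.log L) ^ m₁ ≤ 2 ^ m₁ := pow_le_pow_left₀ hℓ h _
      have h2 : ((2 ^ (m₁ + 1) : ℕ) : ℝ) ≤ m := by
        have : 2 ^ (m₁ + 1) ≤ m := by omega
        exact_mod_cast this
      push_cast at h2
      rw [pow_succ] at h2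
      linarith
    · have h1 : (Real.log L) ^ (m₁ + 1) ≤ (Real.log L) ^ m :=
        pow_le_pow_right₀ (by linarith) (by omega)
      have h2 : (Real.log L) ^ m₁ * 2 ≤ (Real.log L) ^ (m₁ + 1) := by
        rw [pow_succ]
        exact mul_le_mul_of_nonneg_left h (by positivity)
      linarith
  -- the marking parameter
  have hNpos : (0 : ℝ) < N := by linarith
  set w : ℝ := 1 - 1 / (2 * N) with hw
  have hw2 : 1 / (2 * (N : ℝ)) ≤ 1 / 2 := by
    rw [div_le_div_iff₀ (by positivity) (by norm_num)]; linarith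
  have hw0 : 0 ≤ w := by rw [hw]; linarith
  have hw1 : w < 1 := by
    rw [hw]
    have : 0 < 1 / (2 * (N : ℝ)) := by positivity
    linarith
  have hwd : 1 / ((L : ℝ) ^ d * (1 - w)) = 2 * N / (L : ℝ) ^ d := by
    rw [hw]; field_simp; ring
  have hwK : 1 / ((L : ℝ) ^ d * (1 - w)) ≤ 2 / K := by
    rw [hwd, div_le_div_iff₀ hLd (by linarith)]
    nlinarith
  obtain ⟨q₀, hq₀⟩ := hT L K w (by exact_mod_cast hmK) hKL hlogK hw0 hw1 hwK
  have hF : ∀ g : Perm (Fin d → ZMod L), |w ^ (cyc g x).card| ≤ 1 := by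
    intro g
    rw [abs_of_nonneg (by positivity)]
    exact pow_le_one₀ hw0 hw1.le
  have h1 : stirExp (nnRate d L) t (fun g => w ^ (cyc g x).card) ≤
      C₁ * ((K : ℝ) ^ (-(d / 2 : ℝ)) + 1 / ((L : ℝ) ^ d * (1 - w))) := by
    refine stir_le_of_circuit (by omega) hL3 hK1 hKt ht2K hF ⟨q₀, fun q hq σ hσ δ h1 h2 => ?_⟩
    exact hq₀ q hq σ hσ δ h1 h2 x
  -- Bernoulli
  have h2 : ∀ g : Perm (Fin d → ZMod L), (if (cyc g x).card ≤ N then (1 : ℝ) else 0) ≤
      2 * w ^ (cyc g x).card := by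
    intro g
    split_ifs with h
    · have h3 : w ^ N ≤ w ^ (cyc g x).card := pow_le_pow_of_le_one hw0 hw1.le h
      have h4 : 1 + (N : ℝ) * (-(1 / (2 * N))) ≤ (1 + -(1 / (2 * (N : ℝ)))) ^ N :=
        one_add_mul_le_pow (by linarith) N
      have h5 : 1 + (N : ℝ) * (-(1 / (2 * N))) = 1 / 2 := by field_simp; ring
      have h6 : (1 + -(1 / (2 * (N : ℝ)))) = w := by rw [hw]; ring
      rw [h5, h6] at h4
      linarith
    · positivity
  have h3 := Pool.Agent.Y998.ST.exp_mono (J := nnRate d L) Pool.Agent.Y998.ST.nn_nonneg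
    (t := t) (by linarith) h2
  rw [stir_smul] at h3
  refine h3.trans ?_
  have h4 : (K : ℝ) ^ (-(d / 2 : ℝ)) ≤ (2 : ℝ) ^ (d / 2 : ℝ) * t ^ (-(d / 2 : ℝ)) := by
    have e1 : (t / 2) ^ (-(d / 2 : ℝ)) = (2 : ℝ) ^ (d / 2 : ℝ) * t ^ (-(d / 2 : ℝ)) := by
      rw [Real.div_rpow (by linarith) (by norm_num), Real.rpow_neg (by norm_num : (0 : ℝ) ≤ 2)]
      rw [div_inv_eq_mul]; ring
    rw [← e1]
    refine Real.rpow_le_rpow_of_nonpos (by linarith) (by linarith) ?_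
    have : (0 : ℝ) ≤ d := Nat.cast_nonneg d
    linarith
  have h5 : 0 ≤ t ^ (-(d / 2 : ℝ)) := Real.rpow_nonneg (by linarith) _
  have h6 : 0 ≤ (N : ℝ) / (L : ℝ) ^ d := by positivity
  have h7 : (0 : ℝ) < (2 : ℝ) ^ (d / 2 : ℝ) := Real.rpow_pos_of_pos (by norm_num) _
  rw [hwd] at h1
  calc 2 * stirExp (nnRate d L) t (fun g => w ^ (cyc g x).card)
      ≤ 2 * (C₁ * ((2 : ℝ) ^ (d / 2 : ℝ) * t ^ (-(d / 2 : ℝ)) + 2 * N / (L : ℝ) ^ d)) := by
        refine mul_le_mul_of_nonneg_left (h1.trans ?_) (by norm_num)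
        refine mul_le_mul_of_nonneg_left ?_ (by linarith)
        linarith
    _ ≤ 2 * C₁ * ((2 : ℝ) ^ (d / 2 : ℝ) + 2) * (t ^ (-(d / 2 : ℝ)) + N / (L : ℝ) ^ d) := by
        have e1 : 2 * (N : ℝ) / (L : ℝ) ^ d = 2 * (N / (L : ℝ) ^ d) := by ring
        rw [e1]
        have p1 : 0 ≤ (2 : ℝ) ^ (d / 2 : ℝ) * (N / (L : ℝ) ^ d) := by positivity
        have p2 : 0 ≤ C₁ * ((2 : ℝ) ^ (d / 2 : ℝ) * (N / (L : ℝ) ^ d)) := by positivity
        have p3 : 0 ≤ C₁ * t ^ (-(d / 2 : ℝ)) := by positivity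
        nlinarith

end Pool.Agent.Q297.LC
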