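import Pool.Agent.Q297.LC.Lim
import Pool.Agent.Q187.LC.Nas

/-!
# Project LC, job PDQ (helper297): two uniform points are in the same cycle
-/

set_option autoImplicit false

namespace Pool.Agent.Q297.LC

open Finset Equiv Matrix Q292.LC
open Pool.Agent.Y998.ST (stirExp nnRate qq stirLaw totalRate)

section bounds

variable {d L : ℕ} [NeZero L]

lemma card_V : (Finset.univ : Finset (Fin d → ZMod L)).card = L ^ d := by
  rw [Finset.card_univ, Fintype.card_fun, ZMod.card, Fintype.card_fin]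

lemma Qv_nonneg (g : Perm (Fin d → ZMod L)) : 0 ≤ Qv g := by
  unfold Qv
  refine div_nonneg (Finset.sum_nonneg fun x _ => Finset.sum_nonneg fun y _ => ?_) (by positivity)
  split_ifs <;> norm_num

lemma Qb_nonneg (r : ℕ) (g : Perm (Fin d → ZMod L)) : 0 ≤ Qb r g := by
  unfold Qb
  refine div_nonneg (Finset.sum_nonneg fun z _ => Finset.sum_nonneg fun x _ =>
    Finset.sum_nonneg fun y _ => ?_) (by positivity)
  split_ifs <;> norm_num

lemma Qv_le (g : Perm (Fin d → ZMod L)) : Qv g ≤ 1 := by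
  unfold Qv
  have hL : (0 : ℝ) < L := by
    have : 0 < L := Nat.pos_of_ne_zero (NeZero.ne L)
    exact_mod_cast this
  refine div_le_one_of_le₀ ?_ (by positivity)
  calc ∑ x : Fin d → ZMod L, ∑ y : Fin d → ZMod L, (if g.SameCycle x y then (1 : ℝ) else 0)
      ≤ ∑ _x : Fin d → ZMod L, ∑ _y : Fin d → ZMod L, (1 : ℝ) := by
        refine Finset.sum_le_sum fun x _ => Finset.sum_le_sum fun y _ => ?_
        split_ifs <;> norm_num
    _ = (L : ℝ) ^ (2 * d) := by
        simp only [Finset.sum_const, card_V, nsmul_eq_mul, mul_one]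
        push_cast
        ring

lemma Qb_le {r : ℕ} (h1 : 1 ≤ r) (hr : r ≤ L) (g : Perm (Fin d → ZMod L)) : Qb r g ≤ 1 := by
  unfold Qb
  refine div_le_one_of_le₀ ?_ (by positivity)
  calc ∑ z : Fin d → ZMod L, ∑ x ∈ box z r, ∑ y ∈ box z r,
        (if g.SameCycle x y then (1 : ℝ) else 0)
      ≤ ∑ z : Fin d → ZMod L, ∑ _x ∈ box z r, ∑ _y ∈ box z r, (1 : ℝ) := by
        refine Finset.sum_le_sum fun z _ => Finset.sum_le_sum fun x _ =>
          Finset.sum_le_sum fun y _ => ?_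
        split_ifs <;> norm_num
    _ = (L : ℝ) ^ d * (r : ℝ) ^ (2 * d) := by
        simp only [Finset.sum_const, nsmul_eq_mul, mul_one, fun z : Fin d → ZMod L => Pool.Agent.Q187.LC.Nas.card_box z r hr,
          card_V]
        push_cast
        ring

end bounds

theorem pdq (hDEV : S_DEV) (hQLO : S_QLO) : S_PDQ := by
  intro d hd
  obtain ⟨m₁, h₀, hDEV⟩ := hDEV d hd
  obtain ⟨C, hC, hQ⟩ := hQLO d (by omega)
  refine ⟨m₁ + 1, fun ε hε => ?_⟩
  obtain ⟨h₁, hh₁⟩ := exists_nat_gt (4 * C / ε)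
  set h := max h₀ (h₁ + 1) with hh
  obtain ⟨L₁, hL₁⟩ := hDEV h (le_max_left _ _) (ε / 4) (by positivity)
  refine ⟨max L₁ 8, fun L _ t hL hlog ht2 => ?_⟩
  have hL8 : 8 ≤ L := (le_max_right _ _).trans hL
  have hL8' : (8 : ℝ) ≤ L := by exact_mod_cast hL8
  have hlog2 : 2 ≤ Real.log L := by
    have h1 : Real.log 8 ≤ Real.log L := Real.log_le_log (by norm_num) hL8'
    have h2 : Real.log 8 = 3 * Real.log 2 := by
      rw [show (8 : ℝ) = 2 ^ 3 by norm_num, Real.log_pow]; norm_num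
    have h3 := Real.log_two_gt_d9
    linarith
  have hpow : (Real.log L) ^ m₁ * 2 ≤ (Real.log L) ^ (m₁ + 1) := by
    rw [pow_succ]
    exact mul_le_mul_of_nonneg_left hlog2 (by positivity)
  have hpow1 : 1 ≤ (Real.log L) ^ m₁ := one_le_pow₀ (by linarith)
  have ht1 : 1 ≤ t := by linarith
  set K := ⌊t⌋₊ with hK
  have hKt : (K : ℝ) ≤ t := Nat.floor_le (by linarith)
  have hK1 : 1 ≤ K := Nat.le_floor (by rw [Nat.cast_one]; exact ht1)
  have hK1' : (1 : ℝ) ≤ K := by exact_mod_cast hK1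
  have htK : t < K + 1 := Nat.lt_floor_add_one t
  have ht2K : t ≤ 2 * K := by linarith
  have hlogK : (Real.log L) ^ m₁ ≤ K := by linarith
  have hK2 : K ^ 2 ≤ L ^ 3 := by
    have h1 : (K : ℝ) ^ 2 ≤ (L : ℝ) ^ 3 := by
      refine le_trans ?_ ht2
      exact pow_le_pow_left₀ (by linarith) hKt 2
    exact_mod_cast h1
  obtain ⟨q₀, hq₀⟩ := hL₁ L K ((le_max_left _ _).trans hL) hlogK hK2
  set r := Nat.sqrt K / h with hr
  have hrb : 1 ≤ r ∧ r ≤ L := by
    obtain ⟨σ, hσ⟩ := exists_Per d L (by omega)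
    have hq' : (0 : ℝ) < ((max q₀ 1 : ℕ) : ℝ) := by
      have : 0 < max q₀ 1 := by omega
      exact_mod_cast this
    have h1 := hq₀ (max q₀ 1) (le_max_left _ _) σ hσ (1 / ((max q₀ 1 : ℕ) : ℝ))
      (by rw [div_mul_cancel₀ _ hq'.ne']) (by rw [div_mul_cancel₀ _ hq'.ne']; norm_num)
    exact ⟨h1.1, h1.2.1⟩
  have hF : ∀ g : Perm (Fin d → ZMod L), |Qb r g - Qv g| ≤ 1 := by
    intro g
    have a1 := Qb_nonneg r g
    have a2 := Qb_le hrb.1 hrb.2 g
    have a3 := Qv_nonneg g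
    have a4 := Qv_le g
    rw [abs_le]; constructor <;> linarith
  have h1 : stirExp (nnRate d L) t (fun g => Qb r g - Qv g) ≤ ε / 4 := by
    refine stir_le_of_circuit (by omega) (by omega) hK1 hKt ht2K hF
      ⟨q₀, fun q hq σ hσ δ h1 h2 => ?_⟩
    exact (hq₀ q hq σ hσ δ h1 h2).2.2
  rw [stir_sub] at h1
  have h2 := hQ L (by omega) t r (by linarith) hrb.1 hrb.2
  have hhpos : (0 : ℝ) < h := by
    have : 0 < h := by omega
    exact_mod_cast this
  have hsq : 0 < Real.sqrt t := Real.sqrt_pos.2 (by linarith)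
  have h3 : (r : ℝ) ≤ Real.sqrt t / h := by
    have h4 : (r : ℝ) ≤ (Nat.sqrt K : ℝ) / h := Nat.cast_div_le
    refine h4.trans (div_le_div_of_nonneg_right ?_ hhpos.le)
    exact Real.nat_sqrt_le_real_sqrt.trans (Real.sqrt_le_sqrt hKt)
  have h5 : C * r / Real.sqrt t ≤ ε / 4 := by
    have h6 : C * r / Real.sqrt t ≤ C * (Real.sqrt t / h) / Real.sqrt t :=
      div_le_div_of_nonneg_right (mul_le_mul_of_nonneg_left h3 (by linarith)) hsq.le
    have h7 : C * (Real.sqrt t / h) / Real.sqrt t = C / h := by field_simp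
    rw [h7] at h6
    refine h6.trans ?_
    rw [div_le_div_iff₀ hhpos (by norm_num)]
    have h8 : 4 * C / ε < h := by
      refine hh₁.trans_le ?_
      have : h₁ ≤ h := by omega
      exact_mod_cast this
    rw [div_lt_iff₀ hε] at h8
    linarith
  linarith

end Pool.Agent.Q297.LC
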