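import Pool.Agent.Q297.LC.Tlc
import Pool.Agent.Q297.LC.Pdq

/-!
# Project LC, job DEV (helper297), part A: parameters
-/

set_option autoImplicit false

namespace Pool.Agent.Q297.LC

open Finset Equiv Matrix Q292.LC

/-- all numerical facts about the parameters -/
structure Pars (d C₁ m₁ CA h : ℕ) (η' η₁ : ℝ) (L K Z r₁ : ℕ) (y : ℝ) : Prop where
  L3 : 3 ≤ L
  Z1 : 1 ≤ Z
  ZC : C₁ ≤ Z
  Zlog : 100 * d * C₁ * Real.log L ≤ Z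
  LZ : (L : ℝ) ^ d ≤ Real.exp Z
  ZL : 8 * Z ^ m₁ ≤ L
  ZK : Z ^ m₁ ≤ K
  KL2 : K ≤ L ^ 2
  KLd : K ≤ L ^ d
  Zr : Z ^ m₁ ≤ r₁
  dr : d ≤ r₁
  K9 : K ^ 9 ≤ (2 * r₁) ^ (8 * d)
  rK : r₁ ^ 2 ≤ K * Z ^ 2
  big : ((CA : ℝ) * (Z : ℝ) ^ (d + 2) * (h : ℝ) ^ d / η') ^ 8 ≤ K
  y1 : 1 ≤ y
  y8 : y ^ 8 = K
  rd : (r₁ : ℝ) ^ d ≤ y ^ 9
  yL : y ^ 10 ≤ (L : ℝ) ^ 2
  b1 : 18 * 3 ^ d * C₁ * Z ≤ y
  b2 : 12 * CA * (2 * h) ^ (2 * d) / η₁ ≤ y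
  b3 : 16 * C₁ / η₁ ≤ y
  b4 : 4 * (5 * C₁ + 1) / η₁ ≤ y

lemma exists_pars (d C₁ m₁ CA h : ℕ) (hd : 3 ≤ d) (hC₁ : 1 ≤ C₁) (η' η₁ : ℝ)
    (hη' : 0 < η') (hη₁ : 0 < η₁) : ∃ L₀ : ℕ, ∀ L K : ℕ, L₀ ≤ L →
    (Real.log L) ^ (8 * (d + 2) + 8 * d * m₁ + 3 * m₁ + 8 + 1) ≤ K → K ^ 2 ≤ L ^ 3 →
    ∃ (Z r₁ : ℕ) (y : ℝ), Pars d C₁ m₁ CA h η' η₁ L K Z r₁ y := by
  set a₀ := 8 * (d + 2) + 8 * d * m₁ + 3 * m₁ + 8 with ha₀
  set C₂ : ℕ := 100 * d * C₁ with hC₂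
  set c₁ : ℝ := (CA * (h : ℝ) ^ d / η') ^ 8 with hc₁
  set c₂ : ℝ := (18 * 3 ^ d * (C₁ : ℝ)) ^ 8 with hc₂
  set c₃ : ℝ := 2 ^ (8 * d) with hc₃
  set c₄ : ℝ := ((d : ℝ) + 1) ^ (8 * d) with hc₄
  set c₅ : ℝ := (12 * CA * (2 * (h : ℝ)) ^ (2 * d) / η₁) ^ 8 with hc₅
  set c₆ : ℝ := (16 * (C₁ : ℝ) / η₁) ^ 8 with hc₆
  set c₇ : ℝ := (4 * (5 * (C₁ : ℝ) + 1) / η₁) ^ 8 with hc₇
  have p1 : 0 ≤ c₁ := by positivity
  have p2 : 0 ≤ c₂ := by positivity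
  have p3 : 0 ≤ c₃ := by positivity
  have p4 : 0 ≤ c₄ := by positivity
  have p5 : 0 ≤ c₅ := by positivity
  have p6 : 0 ≤ c₆ := by positivity
  have p7 : 0 ≤ c₇ := by positivity
  set c₀ : ℝ := c₁ + c₂ + c₃ + c₄ + c₅ + c₆ + c₇ + 512 with hc₀
  have hc₀1 : 512 ≤ c₀ := by rw [hc₀]; linarith
  clear_value c₁ c₂ c₃ c₄ c₅ c₆ c₇
  refine ⟨⌈Real.exp (c₀ * (2 * C₂) ^ a₀ + 1)⌉₊ + 3, fun L K hL hlog hK2 => ?_⟩
  have hd' : (3 : ℝ) ≤ d := by exact_mod_cast hd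
  have hC₁' : (1 : ℝ) ≤ C₁ := by exact_mod_cast hC₁
  have hC₂r : (300 : ℝ) ≤ C₂ := by
    rw [hC₂]; push_cast
    nlinarith
  have hL3 : 3 ≤ L := by omega
  have hLpos : 1 ≤ L := by omega
  have hLr : (0 : ℝ) < L := by exact_mod_cast hLpos
  have hLr1 : (1 : ℝ) ≤ L := by exact_mod_cast hLpos
  set ℓ := Real.log L with hℓ
  have hℓbig : c₀ * (2 * C₂) ^ a₀ + 1 ≤ ℓ := by
    have h1 : Real.exp (c₀ * (2 * C₂) ^ a₀ + 1) ≤ L := by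
      have h2 := Nat.le_ceil (Real.exp (c₀ * (2 * (C₂ : ℝ)) ^ a₀ + 1))
      have h3 : ((⌈Real.exp (c₀ * (2 * (C₂ : ℝ)) ^ a₀ + 1)⌉₊ : ℕ) : ℝ) ≤ L := by
        have : ⌈Real.exp (c₀ * (2 * (C₂ : ℝ)) ^ a₀ + 1)⌉₊ ≤ L := by omega
        exact_mod_cast this
      linarith
    have := Real.log_le_log (Real.exp_pos _) h1
    rwa [Real.log_exp] at this
  have hpos1 : 0 ≤ c₀ * (2 * (C₂ : ℝ)) ^ a₀ := by positivity
  have hℓ1 : 1 ≤ ℓ := by linarith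
  set Z := ⌈(C₂ : ℝ) * ℓ⌉₊ with hZ
  have hZl : (C₂ : ℝ) * ℓ ≤ Z := Nat.le_ceil _
  have hZu : (Z : ℝ) ≤ 2 * C₂ * ℓ := by
    have := Nat.ceil_lt_add_one (show 0 ≤ (C₂ : ℝ) * ℓ by positivity)
    rw [← hZ] at this
    nlinarith
  have hZr : (1 : ℝ) ≤ Z := by nlinarith
  have hZ1 : 1 ≤ Z := by exact_mod_cast hZr
  have hbig : c₀ * (Z : ℝ) ^ a₀ ≤ K := by
    have h1 : (Z : ℝ) ^ a₀ ≤ (2 * C₂ * ℓ) ^ a₀ := pow_le_pow_left₀ (by positivity) hZu _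
    have h2 : c₀ * (Z : ℝ) ^ a₀ ≤ (c₀ * (2 * C₂) ^ a₀) * ℓ ^ a₀ := by
      calc c₀ * (Z : ℝ) ^ a₀ ≤ c₀ * (2 * C₂ * ℓ) ^ a₀ :=
            mul_le_mul_of_nonneg_left h1 (by linarith)
        _ = (c₀ * (2 * C₂) ^ a₀) * ℓ ^ a₀ := by rw [mul_pow]; ring
    have h3 : (c₀ * (2 * C₂) ^ a₀) * ℓ ^ a₀ ≤ ℓ * ℓ ^ a₀ :=
      mul_le_mul_of_nonneg_right (by linarith) (by positivity)
    have h4 : ℓ * ℓ ^ a₀ = ℓ ^ (a₀ + 1) := by ring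
    linarith
  have hb : ∀ (c : ℝ) (a : ℕ), 0 ≤ c → c ≤ c₀ → a ≤ a₀ → c * (Z : ℝ) ^ a ≤ K := by
    intro c a h1 h2 h3
    refine le_trans ?_ hbig
    exact mul_le_mul h2 (pow_le_pow_right₀ hZr h3) (by positivity) (by linarith)
  have hKr : (512 : ℝ) ≤ K := by
    have := hb 512 0 (by norm_num) hc₀1 (Nat.zero_le _)
    simpa using this
  have hK1 : 1 ≤ K := by
    have : (1 : ℝ) ≤ K := by linarith
    exact_mod_cast this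
  -- the eighth root
  set y : ℝ := (K : ℝ) ^ ((1 : ℝ) / 8) with hy
  have hy8 : y ^ 8 = K := by
    rw [hy, ← Real.rpow_natCast, ← Real.rpow_mul (by linarith)]
    norm_num
  have hy0 : 0 ≤ y := Real.rpow_nonneg (by linarith) _
  have hy1 : 1 ≤ y := by
    rw [← pow_le_pow_iff_left₀ (by norm_num) hy0 (show 8 ≠ 0 by norm_num), hy8, one_pow]
    linarith
  have hyc : ∀ c : ℝ, 0 ≤ c → c ^ 8 ≤ c₀ → c * Z ≤ y := by
    intro c h1 h2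
    rw [← pow_le_pow_iff_left₀ (by positivity) hy0 (show 8 ≠ 0 by norm_num), hy8, mul_pow]
    exact hb (c ^ 8) 8 (by positivity) h2 (by omega)
  have hyc1 : ∀ c : ℝ, 0 ≤ c → c ^ 8 ≤ c₀ → c ≤ y := by
    intro c h1 h2
    refine le_trans ?_ (hyc c h1 h2)
    exact le_mul_of_one_le_right h1 hZr
  -- sizes
  have hKL2 : K ≤ L ^ 2 := by
    have h1 : K ^ 2 ≤ (L ^ 2) ^ 2 := by
      refine hK2.trans ?_
      rw [← pow_mul]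
      exact Nat.pow_le_pow_right hLpos (by norm_num)
    exact le_of_pow_le_pow_left₀ (by norm_num) (Nat.zero_le _) h1
  have hKLd : K ≤ L ^ d := hKL2.trans (Nat.pow_le_pow_right hLpos (by omega))
  obtain ⟨r₁, hr1, hr2⟩ := exists_root (8 * d) (K ^ 9) (by omega)
  have hKK9 : K ≤ K ^ 9 := Nat.le_self_pow (by norm_num) K
  have hZr1 : Z ^ m₁ ≤ r₁ := by
    have h1 : (2 * Z ^ m₁) ^ (8 * d) ≤ K := by
      have h2 := hb c₃ (m₁ * (8 * d)) p3 (by rw [hc₀]; linarith) (by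
        rw [ha₀]
        have : m₁ * (8 * d) = 8 * d * m₁ := by ring
        omega)
      rw [hc₃] at h2
      have h3 : ((2 * Z ^ m₁ : ℕ) : ℝ) ^ (8 * d) ≤ K := by
        push_cast
        rw [mul_pow, ← pow_mul]
        exact h2
      exact_mod_cast h3
    have h4 : (2 * Z ^ m₁) ^ (8 * d) < (r₁ + 1) ^ (8 * d) := by omega
    have h5 := lt_of_pow_lt_pow_left₀ (8 * d) (Nat.zero_le _) h4
    have h6 : 1 ≤ Z ^ m₁ := Nat.one_le_pow _ _ hZ1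
    omega
  have hdr : d ≤ r₁ := by
    have h1 : (d + 1) ^ (8 * d) ≤ K := by
      have h2 := hb c₄ 0 p4 (by rw [hc₀]; linarith) (Nat.zero_le _)
      rw [pow_zero, mul_one, hc₄] at h2
      exact_mod_cast h2
    have h4 : (d + 1) ^ (8 * d) < (r₁ + 1) ^ (8 * d) := by omega
    have h5 := lt_of_pow_lt_pow_left₀ (8 * d) (Nat.zero_le _) h4
    omega
  have hrK : r₁ ^ 2 ≤ K := by
    have h1 : (r₁ ^ 2) ^ (4 * d) ≤ K ^ (4 * d) := by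
      rw [← pow_mul, show 2 * (4 * d) = 8 * d by ring]
      refine hr1.trans (Nat.pow_le_pow_right hK1 (by omega))
    exact le_of_pow_le_pow_left₀ (by omega) (Nat.zero_le _) h1
  refine ⟨Z, r₁, y, ?_⟩
  refine
    { L3 := hL3, Z1 := hZ1, ZC := ?_, Zlog := ?_, LZ := ?_, ZL := ?_, ZK := ?_, KL2 := hKL2,
      KLd := hKLd, Zr := hZr1, dr := hdr, K9 := ?_, rK := ?_, big := ?_, y1 := hy1, y8 := hy8,
      rd := ?_, yL := ?_, b1 := ?_, b2 := ?_, b3 := ?_, b4 := ?_ }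
  · have : (C₁ : ℝ) ≤ Z := by
      refine le_trans ?_ hZl
      have : (C₁ : ℝ) ≤ C₂ := by
        rw [hC₂]; push_cast; nlinarith
      nlinarith
    exact_mod_cast this
  · rw [hC₂] at hZl; push_cast at hZl; exact hZl
  · rw [pow_exp hLpos, Real.exp_le_exp, ← hℓ]
    refine le_trans ?_ hZl
    refine mul_le_mul_of_nonneg_right ?_ (by linarith)
    rw [hC₂]; push_cast
    nlinarith
  · have h1 : 512 * Z ^ (m₁ * 3) ≤ K := by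
      have := hb 512 (m₁ * 3) (by norm_num) hc₀1 (by omega)
      exact_mod_cast this
    have h2 : (8 * Z ^ m₁) ^ 3 ≤ L ^ 3 := by
      rw [mul_pow, ← pow_mul]
      have : K ≤ K ^ 2 := Nat.le_self_pow (by norm_num) K
      omega
    exact le_of_pow_le_pow_left₀ (by norm_num) (Nat.zero_le _) h2
  · have := hb 1 m₁ (by norm_num) (by linarith) (by omega)
    rw [one_mul] at this
    exact_mod_cast this
  · refine hr2.le.trans (Nat.pow_le_pow_left (by omega) _)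
  · refine hrK.trans (Nat.le_mul_of_pos_right _ (by positivity))
  · have h1 := hb c₁ (8 * (d + 2)) p1 (by rw [hc₀]; linarith) (by omega)
    rw [hc₁] at h1
    refine le_trans (le_of_eq ?_) h1
    rw [show 8 * (d + 2) = (d + 2) * 8 by ring, pow_mul, ← mul_pow]
    congr 1
    ring
  · rw [← pow_le_pow_iff_left₀ (by positivity) (by positivity) (show 8 ≠ 0 by norm_num)]
    have h1 : (y ^ 9) ^ 8 = (K : ℝ) ^ 9 := by rw [← hy8]; ring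
    rw [h1, ← pow_mul, Nat.mul_comm]
    exact_mod_cast hr1
  · have h1 : (y ^ 10) ^ 8 ≤ ((L : ℝ) ^ 2) ^ 8 := by
      have h2 : (y ^ 10) ^ 8 = ((K : ℝ) ^ 2) ^ 5 := by rw [← hy8]; ring
      rw [h2]
      have h3 : (K : ℝ) ^ 2 ≤ (L : ℝ) ^ 3 := by exact_mod_cast hK2
      calc ((K : ℝ) ^ 2) ^ 5 ≤ ((L : ℝ) ^ 3) ^ 5 := pow_le_pow_left₀ (by positivity) h3 5
        _ = (L : ℝ) ^ 15 := by ring
        _ ≤ (L : ℝ) ^ 16 := pow_le_pow_right₀ hLr1 (by norm_num)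
        _ = ((L : ℝ) ^ 2) ^ 8 := by ring
    exact (pow_le_pow_iff_left₀ (by positivity) (by positivity) (by norm_num)).1 h1
  · exact hyc _ (by positivity) (by rw [← hc₂, hc₀]; linarith)
  · exact hyc1 _ (by positivity) (by rw [← hc₅, hc₀]; linarith)
  · exact hyc1 _ (by positivity) (by rw [← hc₆, hc₀]; linarith)
  · exact hyc1 _ (by positivity) (by rw [← hc₇, hc₀]; linarith)

end Pool.Agent.Q297.LC
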