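import Pool.Agent.Q297.LC.Mrg
import Pool.Agent.Q151.LC.Walk

/-!
# Project LC, job LOC (helper297): geometry, enumeration, counting of inner steps
-/

set_option autoImplicit false

namespace Pool.Agent.Q297.LC

open Finset Equiv Matrix Q292.LC

section geo

variable {d : ℕ}

/-- `ℓ¹` norm -/
def nrm (w : Fin d → ℤ) : ℕ := ∑ i, (w i).natAbs

/-- end points of an edge of `ℤ^d` -/
def up (p : (Fin d → ℤ) × Fin d) : (Fin d → ℤ) × (Fin d → ℤ) :=
  (p.1, Function.update p.1 p.2 (p.1 p.2 + 1))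

/-- projection to the torus -/
def cst (L : ℕ) (w : Fin d → ℤ) : Fin d → ZMod L := fun i => (w i : ZMod L)

lemma abs_le_nrm (w : Fin d → ℤ) (i : Fin d) : (w i).natAbs ≤ nrm w :=
  Finset.single_le_sum (f := fun i => (w i).natAbs) (fun _ _ => Nat.zero_le _) (Finset.mem_univ i)

lemma nrm_update (w : Fin d → ℤ) (i : Fin d) (a : ℤ) :
    nrm (Function.update w i a) + (w i).natAbs = nrm w + a.natAbs := by
  unfold nrm
  rw [← Finset.add_sum_erase _ (fun j => (w j).natAbs) (Finset.mem_univ i),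
    ← Finset.add_sum_erase _ (fun j => (Function.update w i a j).natAbs) (Finset.mem_univ i)]
  have h : ∑ j ∈ Finset.univ.erase i, (Function.update w i a j).natAbs =
      ∑ j ∈ Finset.univ.erase i, (w j).natAbs := by
    refine Finset.sum_congr rfl fun j hj => ?_
    rw [Function.update_of_ne (Finset.ne_of_mem_erase hj)]
  rw [h, Function.update_self]
  ring

lemma nrm_up (w : Fin d → ℤ) (i : Fin d) : nrm (Function.update w i (w i + 1)) ≤ nrm w + 1 := by
  have := nrm_update w i (w i + 1)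
  omega

lemma nrm_down (w : Fin d → ℤ) (i : Fin d) : nrm (Function.update w i (w i - 1)) ≤ nrm w + 1 := by
  have := nrm_update w i (w i - 1)
  omega

lemma nrm_zero : nrm (0 : Fin d → ℤ) = 0 := by
  unfold nrm; simp

variable {L R : ℕ}

lemma cst_inj (hL : 4 * R + 8 ≤ L) {w w' : Fin d → ℤ} (h1 : nrm w ≤ R + 1) (h2 : nrm w' ≤ R + 1)
    (h : cst L w = cst L w') : w = w' := by
  funext i
  have e1 := congrFun h i
  unfold cst at e1
  rw [ZMod.intCast_eq_intCast_iff_dvd_sub] at e1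
  have a1 := (abs_le_nrm w i).trans h1
  have a2 := (abs_le_nrm w' i).trans h2
  have e2 : w' i - w i = 0 := by
    apply Int.eq_zero_of_abs_lt_dvd e1
    rw [abs_lt]
    constructor <;> omega
  omega

lemma td_cst [NeZero L] (hL : 4 * R + 8 ≤ L) {w : Fin d → ℤ} (h1 : nrm w ≤ R + 1) :
    td 0 (cst L w) = nrm w := by
  unfold td nrm
  refine Finset.sum_congr rfl fun i _ => ?_
  have a1 := (abs_le_nrm w i).trans h1
  have e1 : ((w i : ℤ) : ZMod L).valMinAbs = w i := by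
    rw [ZMod.valMinAbs_spec]
    refine ⟨rfl, ?_⟩
    rw [Set.mem_Ioc]
    constructor <;> omega
  rw [Pi.zero_apply, zero_sub, ZMod.natAbs_valMinAbs_neg]
  unfold cst
  rw [e1]

lemma lift_cst (v : Fin d → ZMod L) : ∃ w : Fin d → ℤ, nrm w = td 0 v ∧ cst L w = v := by
  refine ⟨fun i => (v i).valMinAbs, ?_, ?_⟩
  · unfold nrm td
    refine Finset.sum_congr rfl fun i _ => ?_
    rw [Pi.zero_apply, zero_sub, ZMod.natAbs_valMinAbs_neg]
  · funext i
    unfold cst
    exact ZMod.coe_valMinAbs _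

lemma cst_update (w : Fin d → ℤ) (i : Fin d) (a : ℤ) :
    cst L (Function.update w i a) = Function.update (cst L w) i (a : ZMod L) := by
  funext j
  unfold cst
  by_cases h : j = i
  · subst h; simp
  · simp [Function.update_of_ne h]

lemma ed_cst (p : (Fin d → ℤ) × Fin d) :
    ed ((cst L p.1, p.2) : (Fin d → ZMod L) × Fin d) = (cst L (up p).1, cst L (up p).2) := by
  unfold ed up
  rw [cst_update]
  simp [cst]

end geo

/-- enumeration of the inner edges -/
structure PZ (d R s₁ : ℕ) (pz : ℕ → (Fin d → ℤ) × Fin d) : Prop where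
  pos : 0 < s₁
  mem : ∀ k, nrm (pz k).1 ≤ R + 1 ∧ nrm (up (pz k)).2 ≤ R + 1
  per : ∀ k, pz (k % s₁) = pz k
  inj : Set.InjOn pz (Set.Iio s₁)
  surj : ∀ p : (Fin d → ℤ) × Fin d, nrm p.1 ≤ R + 1 → nrm (up p).2 ≤ R + 1 → ∃ k < s₁, pz k = p

/-- the enumeration of the edges of the torus starts with the inner edges -/
structure SG (d L s₁ : ℕ) (pz : ℕ → (Fin d → ℤ) × Fin d)
    (σ : ℕ → (Fin d → ZMod L) × Fin d) : Prop where
  per : Per σ
  le : s₁ ≤ ms d L
  eq : ∀ k < s₁, σ k = (cst L (pz k).1, (pz k).2)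

lemma exists_PZ (d R : ℕ) (hd : 1 ≤ d) : ∃ s₁ pz, PZ d R s₁ pz := by
  classical
  set T : Finset ((Fin d → ℤ) × Fin d) :=
    ((Fintype.piFinset fun _ : Fin d => Finset.Icc (-((R : ℤ) + 1)) ((R : ℤ) + 1)) ×ˢ
      Finset.univ).filter fun p => nrm p.1 ≤ R + 1 ∧ nrm (up p).2 ≤ R + 1 with hT
  have hmem : ∀ p : (Fin d → ℤ) × Fin d, p ∈ T ↔ nrm p.1 ≤ R + 1 ∧ nrm (up p).2 ≤ R + 1 := by
    intro p
    rw [hT, Finset.mem_filter]
    constructor
    · exact fun h => h.2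
    · intro h
      refine ⟨?_, h⟩
      rw [Finset.mem_product, Fintype.mem_piFinset]
      refine ⟨fun i => ?_, Finset.mem_univ _⟩
      have := (abs_le_nrm p.1 i).trans h.1
      rw [Finset.mem_Icc]
      constructor <;> omega
  have h0 : ((0 : Fin d → ℤ), (⟨0, hd⟩ : Fin d)) ∈ T := by
    rw [hmem]
    constructor
    · rw [nrm_zero]; omega
    · have := nrm_up (0 : Fin d → ℤ) (⟨0, hd⟩ : Fin d)
      rw [nrm_zero] at this
      exact this.trans (by omega)
  have hpos : 0 < T.card := Finset.card_pos.2 ⟨_, h0⟩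
  refine ⟨T.card, fun k => ((T.equivFin.symm ⟨k % T.card, Nat.mod_lt _ hpos⟩ : T) :
    (Fin d → ℤ) × Fin d), hpos, fun k => ?_, fun k => ?_, ?_, ?_⟩
  · exact (hmem _).1 (T.equivFin.symm ⟨k % T.card, Nat.mod_lt _ hpos⟩).2
  · simp only [Nat.mod_mod]
  · intro a ha b hb hab
    have e1 := T.equivFin.symm.injective (Subtype.ext hab)
    have e2 : a % T.card = b % T.card := by simpa using e1
    rwa [Nat.mod_eq_of_lt ha, Nat.mod_eq_of_lt hb] at e2
  · intro p h1 h2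
    have hp : p ∈ T := (hmem p).2 ⟨h1, h2⟩
    refine ⟨(T.equivFin ⟨p, hp⟩ : ℕ), (T.equivFin ⟨p, hp⟩).2, ?_⟩
    have e1 : (⟨(T.equivFin ⟨p, hp⟩ : ℕ) % T.card, Nat.mod_lt _ hpos⟩ : Fin T.card) =
        T.equivFin ⟨p, hp⟩ := by
      apply Fin.ext
      exact Nat.mod_eq_of_lt (T.equivFin ⟨p, hp⟩).2
    simp only [e1, Equiv.symm_apply_apply]

lemma exists_SG {d R s₁ : ℕ} {pz : ℕ → (Fin d → ℤ) × Fin d} (hd : 1 ≤ d) (hp : PZ d R s₁ pz)
    (L : ℕ) [NeZero L] (hL : 4 * R + 8 ≤ L) : ∃ σ, SG d L s₁ pz σ := by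
  classical
  set f : ℕ → (Fin d → ZMod L) × Fin d := fun k => (cst L (pz k).1, (pz k).2) with hf
  have finj : Set.InjOn f (Set.Iio s₁) := by
    intro a ha b hb hab
    have e1 : cst L (pz a).1 = cst L (pz b).1 := congrArg Prod.fst hab
    have e2 : (pz a).2 = (pz b).2 := congrArg (fun p : (Fin d → ZMod L) × Fin d => p.2) hab
    have e3 := cst_inj hL (hp.mem a).1 (hp.mem b).1 e1
    exact hp.inj ha hb (Prod.ext e3 e2)
  have hcard : Fintype.card (Fin (ms d L)) =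
      (Finset.univ : Finset ((Fin d → ZMod L) × Fin d)).card := by
    rw [Fintype.card_fin, Finset.card_univ, Fintype.card_prod, Fintype.card_fin, Fintype.card_fun,
      ZMod.card, Fintype.card_fin]
    rfl
  have hle : s₁ ≤ ms d L := by
    have h1 : ((Finset.range s₁).image f).card ≤
        (Finset.univ : Finset ((Fin d → ZMod L) × Fin d)).card :=
      Finset.card_le_card (Finset.subset_univ _)
    rw [Finset.card_image_of_injOn (by
      intro a ha b hb hab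
      exact finj (by simpa using ha) (by simpa using hb) hab), Finset.card_range, ← hcard,
      Fintype.card_fin] at h1
    exact h1
  have hms : 0 < ms d L := lt_of_lt_of_le hp.pos hle
  obtain ⟨g, hg⟩ := Finset.exists_equiv_extend_of_card_eq (α := Fin (ms d L)) hcard
    (s := Finset.univ.filter fun k : Fin (ms d L) => (k : ℕ) < s₁) (f := fun k => f k)
    (Finset.subset_univ _) (by
      intro a ha b hb hab
      apply Fin.ext
      refine finj ?_ ?_ hab
      · simpa using ha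
      · simpa using hb)
  refine ⟨fun k => (g ⟨k % ms d L, Nat.mod_lt _ hms⟩ : (Fin d → ZMod L) × Fin d),
    ⟨fun k => ?_, ?_⟩, hle, fun k hk => ?_⟩
  · simp only [Nat.add_mod_right]
  · refine ⟨fun _ _ => Set.mem_univ _, ?_, ?_⟩
    · intro a ha b hb hab
      have e1 := g.injective (Subtype.ext hab)
      have e2 : a % ms d L = b % ms d L := by simpa using e1
      rwa [Nat.mod_eq_of_lt ha, Nat.mod_eq_of_lt hb] at e2
    · intro p _
      refine ⟨(g.symm ⟨p, Finset.mem_univ _⟩ : ℕ), (g.symm ⟨p, Finset.mem_univ _⟩).2, ?_⟩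
      have e1 : (⟨(g.symm ⟨p, Finset.mem_univ _⟩ : ℕ) % ms d L, Nat.mod_lt _ hms⟩ :
          Fin (ms d L)) = g.symm ⟨p, Finset.mem_univ _⟩ := by
        apply Fin.ext
        exact Nat.mod_eq_of_lt (g.symm ⟨p, Finset.mem_univ _⟩).2
      simp only [e1, Equiv.apply_symm_apply]
  · have hk' : k < ms d L := lt_of_lt_of_le hk hle
    have e1 : (⟨k % ms d L, Nat.mod_lt _ hms⟩ : Fin (ms d L)) = ⟨k, hk'⟩ := by
      apply Fin.ext
      exact Nat.mod_eq_of_lt hk'
    have := hg ⟨k, hk'⟩ (Finset.mem_filter.2 ⟨Finset.mem_univ _, hk⟩)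
    simp only [e1]
    exact this

/-! ### counting the inner steps -/

/-- number of inner steps among the first `k` -/
def cnt (M s₁ k : ℕ) : ℕ := k / M * s₁ + min (k % M) s₁

lemma cnt_eq {M s₁ : ℕ} (hM : 0 < M) (hs : s₁ ≤ M) (q r : ℕ) (hr : r ≤ M) :
    cnt M s₁ (q * M + r) = q * s₁ + min r s₁ := by
  unfold cnt
  rcases hr.lt_or_eq with h | h
  · rw [Nat.add_comm (q * M) r, Nat.add_mul_div_right _ _ hM, Nat.div_eq_of_lt h,
      Nat.add_mul_mod_self_right, Nat.mod_eq_of_lt h, zero_add]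
  · subst h
    have e1 : q * r + r = 0 + (q + 1) * r := by ring
    rw [e1, Nat.add_mul_div_right _ _ hM, Nat.add_mul_mod_self_right, Nat.zero_div, Nat.zero_mod,
      min_eq_right hs, Nat.zero_min, zero_add, Nat.succ_mul]
    rfl

lemma cnt_mul {M s₁ : ℕ} (hM : 0 < M) (hs : s₁ ≤ M) (s : ℕ) : cnt M s₁ (s * M) = s * s₁ := by
  have := cnt_eq hM hs s 0 (Nat.zero_le _)
  rw [add_zero, Nat.zero_min, add_zero] at this
  exact this

lemma cnt_zero {M s₁ : ℕ} (hM : 0 < M) (hs : s₁ ≤ M) : cnt M s₁ 0 = 0 := by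
  have := cnt_mul hM hs 0
  rwa [zero_mul, zero_mul] at this

lemma cnt_in {M s₁ k : ℕ} (hM : 0 < M) (h0 : 0 < s₁) (hs : s₁ ≤ M) (h : k % M < s₁) :
    cnt M s₁ (k + 1) = cnt M s₁ k + 1 ∧ cnt M s₁ k / s₁ * M + cnt M s₁ k % s₁ = k ∧
      cnt M s₁ k % s₁ = k % M := by
  have hk : k = k / M * M + k % M := by rw [Nat.mul_comm]; exact (Nat.div_add_mod k M).symm
  set q := k / M
  set r := k % M with hr
  have hrM : r < M := Nat.mod_lt _ hM
  have e1 : cnt M s₁ k = q * s₁ + r := by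
    conv_lhs => rw [hk]
    rw [cnt_eq hM hs q r hrM.le, min_eq_left h.le]
  have e2 : cnt M s₁ (k + 1) = q * s₁ + (r + 1) := by
    conv_lhs => rw [hk]
    rw [add_assoc, cnt_eq hM hs q (r + 1) hrM, min_eq_left h]
  have e3 : (q * s₁ + r) / s₁ = q := by
    rw [Nat.add_comm, Nat.add_mul_div_right _ _ h0, Nat.div_eq_of_lt h, zero_add]
  have e4 : (q * s₁ + r) % s₁ = r := by
    rw [Nat.add_comm, Nat.add_mul_mod_self_right, Nat.mod_eq_of_lt h]
  rw [e1, e2, e3, e4]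
  exact ⟨by ring, hk.symm, rfl⟩

lemma cnt_out {M s₁ k : ℕ} (hM : 0 < M) (hs : s₁ ≤ M) (h : s₁ ≤ k % M) :
    cnt M s₁ (k + 1) = cnt M s₁ k := by
  have hk : k = k / M * M + k % M := by rw [Nat.mul_comm]; exact (Nat.div_add_mod k M).symm
  set q := k / M
  set r := k % M with hr
  have hrM : r < M := Nat.mod_lt _ hM
  have e1 : cnt M s₁ k = q * s₁ + s₁ := by
    conv_lhs => rw [hk]
    rw [cnt_eq hM hs q r hrM.le, min_eq_right h]
  have e2 : cnt M s₁ (k + 1) = q * s₁ + s₁ := by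
    conv_lhs => rw [hk]
    rw [add_assoc, cnt_eq hM hs q (r + 1) hrM, min_eq_right (by omega)]
  rw [e1, e2]

lemma cnt_mono_step {M s₁ k : ℕ} (hM : 0 < M) (h0 : 0 < s₁) (hs : s₁ ≤ M) :
    cnt M s₁ k ≤ cnt M s₁ (k + 1) ∧ cnt M s₁ (k + 1) ≤ cnt M s₁ k + 1 := by
  rcases lt_or_ge (k % M) s₁ with h | h
  · rw [(cnt_in hM h0 hs h).1]; omega
  · rw [cnt_out hM hs h]; omega

lemma cnt_mono {M s₁ : ℕ} (hM : 0 < M) (h0 : 0 < s₁) (hs : s₁ ≤ M) : Monotone (cnt M s₁) :=
  monotone_nat_of_le_succ fun _ => (cnt_mono_step hM h0 hs).1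

lemma cnt_lt {M s₁ s k : ℕ} (hM : 0 < M) (h0 : 0 < s₁) (hs : s₁ ≤ M) (hk : k < s * M)
    (h : k % M < s₁) : cnt M s₁ k < s * s₁ := by
  have h1 := cnt_mono hM h0 hs (Nat.succ_le_of_lt hk)
  rw [Nat.succ_eq_add_one, (cnt_in hM h0 hs h).1, cnt_mul hM hs] at h1
  omega

lemma cnt_surj {M s₁ : ℕ} (hM : 0 < M) (h0 : 0 < s₁) (hs : s₁ ≤ M) (N : ℕ) :
    ∀ j ≤ cnt M s₁ N, ∃ k ≤ N, cnt M s₁ k = j := by
  induction N with
  | zero =>
    intro j hj
    rw [cnt_zero hM hs] at hj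
    exact ⟨0, le_rfl, by rw [cnt_zero hM hs]; omega⟩
  | succ N ih =>
    intro j hj
    have h1 := cnt_mono_step (k := N) hM h0 hs
    rcases Nat.lt_or_ge (cnt M s₁ N) j with h | h
    · exact ⟨N + 1, le_rfl, by omega⟩
    · obtain ⟨k, hk, hk'⟩ := ih j h
      exact ⟨k, by omega, hk'⟩

end Pool.Agent.Q297.LC
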