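import Pool.Agent.Q292.LC.Stm7

/-!
# Project LC, job MRG (helper297): marginals of the coins
-/

set_option autoImplicit false

namespace Pool.Agent.Q297.LC

open Finset Q292.LC

theorem mrg : S_MRG := by
  intro n n' ι δ F h1 h2
  set I := (Finset.range n').image ι with hI
  set O := Finset.range n \ I with hO
  have hIs : I ⊆ Finset.range n := by
    intro x hx
    obtain ⟨k, hk, rfl⟩ := Finset.mem_image.1 hx
    exact Finset.mem_range.2 (h1 k (Finset.mem_range.1 hk))
  have hinj : Set.InjOn ι (Finset.range n' : Set ℕ) := by
    intro a ha b hb h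
    exact h2 (by simpa using ha) (by simpa using hb) h
  have hcI : I.card = n' := by
    rw [hI, Finset.card_image_of_injOn hinj, Finset.card_range]
  have hcO : O.card = n - n' := by
    rw [hO, Finset.card_sdiff_of_subset hIs, Finset.card_range, hcI]
  have hn : n' ≤ n := by
    have := Finset.card_le_card hIs
    rwa [hcI, Finset.card_range] at this
  have hone : ∑ S ∈ O.powerset, δ ^ S.card * (1 - δ) ^ (O.card - S.card) = 1 := by
    rw [Finset.sum_pow_mul_eq_add_pow]
    simp
  have key : ∑ p ∈ (Finset.range n').powerset ×ˢ O.powerset,
      (δ ^ p.1.card * (1 - δ) ^ (n' - p.1.card) * F (fun k => decide (k ∈ p.1))) *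
        (δ ^ p.2.card * (1 - δ) ^ (O.card - p.2.card)) =
      ∑ S ∈ (Finset.range n).powerset, δ ^ S.card * (1 - δ) ^ (n - S.card) *
        F (fun k => if k < n' then decide (ι k ∈ S) else false) := by
    refine Finset.sum_bij' (fun p _ => p.1.image ι ∪ p.2)
      (fun S _ => ((Finset.range n').filter (fun k => ι k ∈ S), S ∩ O)) ?_ ?_ ?_ ?_ ?_
    · intro p hp
      obtain ⟨ha, hb⟩ := Finset.mem_product.1 hp
      rw [Finset.mem_powerset] at ha hb ⊢
      refine Finset.union_subset ?_ (hb.trans Finset.sdiff_subset)
      exact (Finset.image_subset_image ha).trans hIs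
    · intro S hS
      rw [Finset.mem_product, Finset.mem_powerset, Finset.mem_powerset]
      exact ⟨Finset.filter_subset _ _, Finset.inter_subset_right⟩
    · intro p hp
      obtain ⟨ha, hb⟩ := Finset.mem_product.1 hp
      rw [Finset.mem_powerset] at ha hb
      have e1 : (Finset.range n').filter (fun k => ι k ∈ p.1.image ι ∪ p.2) = p.1 := by
        ext k
        rw [Finset.mem_filter, Finset.mem_union]
        constructor
        · rintro ⟨hk, h | h⟩
          · obtain ⟨j, hj, hjk⟩ := Finset.mem_image.1 h
            have := hinj (by simpa using ha hj) (by simpa using hk) hjk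
            rwa [← this]
          · exfalso
            have := Finset.mem_sdiff.1 (hb h)
            exact this.2 (Finset.mem_image_of_mem _ hk)
        · intro hk
          exact ⟨ha hk, Or.inl (Finset.mem_image_of_mem _ hk)⟩
      have e2 : (p.1.image ι ∪ p.2) ∩ O = p.2 := by
        ext x
        rw [Finset.mem_inter, Finset.mem_union]
        constructor
        · rintro ⟨h | h, hx⟩
          · exfalso
            exact (Finset.mem_sdiff.1 hx).2 (Finset.image_subset_image ha h)
          · exact h
        · intro h
          exact ⟨Or.inr h, hb h⟩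
      exact Prod.ext e1 e2
    · intro S hS
      rw [Finset.mem_powerset] at hS
      ext x
      rw [Finset.mem_union, Finset.mem_image, Finset.mem_inter]
      constructor
      · rintro (⟨k, hk, rfl⟩ | ⟨h, -⟩)
        · exact (Finset.mem_filter.1 hk).2
        · exact h
      · intro hx
        by_cases h : x ∈ I
        · obtain ⟨k, hk, rfl⟩ := Finset.mem_image.1 h
          exact Or.inl ⟨k, Finset.mem_filter.2 ⟨hk, hx⟩, rfl⟩
        · exact Or.inr ⟨hx, Finset.mem_sdiff.2 ⟨hS hx, h⟩⟩
    · intro p hp
      obtain ⟨ha, hb⟩ := Finset.mem_product.1 hp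
      rw [Finset.mem_powerset] at ha hb
      have hd : Disjoint (p.1.image ι) p.2 := by
        rw [Finset.disjoint_left]
        intro x hx hx'
        exact (Finset.mem_sdiff.1 (hb hx')).2 (Finset.image_subset_image ha hx)
      have c1 : (p.1.image ι).card = p.1.card :=
        Finset.card_image_of_injOn (hinj.mono (by exact_mod_cast ha))
      have c2 : (p.1.image ι ∪ p.2).card = p.1.card + p.2.card := by
        rw [Finset.card_union_of_disjoint hd, c1]
      have c3 : p.1.card ≤ n' := by
        have := Finset.card_le_card ha
        rwa [Finset.card_range] at this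
      have c4 : p.2.card ≤ O.card := Finset.card_le_card hb
      have e3 : (fun k => decide (k ∈ p.1)) =
          fun k => if k < n' then decide (ι k ∈ p.1.image ι ∪ p.2) else false := by
        funext k
        by_cases hk : k < n'
        · rw [if_pos hk]
          congr 1
          rw [eq_iff_iff, Finset.mem_union]
          constructor
          · intro h; exact Or.inl (Finset.mem_image_of_mem _ h)
          · rintro (h | h)
            · obtain ⟨j, hj, hjk⟩ := Finset.mem_image.1 h
              have := hinj (by simpa using ha hj) (by simpa using hk) hjk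
              rwa [← this]
            · exfalso
              have := Finset.mem_sdiff.1 (hb h)
              exact this.2 (Finset.mem_image_of_mem _ (Finset.mem_range.2 hk))
        · rw [if_neg hk, decide_eq_false_iff_not]
          intro h
          exact hk (Finset.mem_range.1 (ha h))
      show _ = δ ^ (p.1.image ι ∪ p.2).card * (1 - δ) ^ (n - (p.1.image ι ∪ p.2).card) *
        F (fun k => if k < n' then decide (ι k ∈ p.1.image ι ∪ p.2) else false)
      rw [← e3, c2, show n - (p.1.card + p.2.card) = (n' - p.1.card) + (O.card - p.2.card) by omega,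
        pow_add, pow_add]
      ring
  unfold EE
  rw [← key, Finset.sum_product]
  refine Finset.sum_congr rfl fun T _ => ?_
  have h3 : ∀ A : ℝ, ∑ y ∈ O.powerset, A * (δ ^ y.card * (1 - δ) ^ (O.card - y.card)) = A :=
    fun A => by rw [← Finset.mul_sum, hone, mul_one]
  exact h3 (δ ^ T.card * (1 - δ) ^ (n' - T.card) * F (fun k => decide (k ∈ T)))

end Pool.Agent.Q297.LC
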