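import Pool.Agent.Q292.LC.Stm7

/-!
# Project LC (helper297): choice of parameters, common estimates
-/

set_option autoImplicit false

namespace Pool.Agent.Q297.LC

lemma exists_root (m K : ℕ) (hm : 1 ≤ m) : ∃ Z, Z ^ m ≤ K ∧ K < (Z + 1) ^ m := by
  have h0 : (0 : ℕ) ^ m ≤ K := by rw [zero_pow (by omega)]; exact Nat.zero_le _
  refine ⟨Nat.findGreatest (fun z => z ^ m ≤ K) K, ?_, ?_⟩
  · exact Nat.findGreatest_spec (P := fun z => z ^ m ≤ K) (Nat.zero_le K) h0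
  · set Z := Nat.findGreatest (fun z => z ^ m ≤ K) K with hZ
    by_contra hcon
    push Not at hcon
    rcases Nat.lt_or_ge K (Z + 1) with h | h
    · have h1 : Z + 1 ≤ (Z + 1) ^ m := Nat.le_self_pow (by omega) _
      omega
    · have := Nat.le_findGreatest (P := fun z => z ^ m ≤ K) h hcon
      omega

lemma pow_exp {L : ℕ} (hL : 1 ≤ L) (a : ℕ) : (L : ℝ) ^ a = Real.exp (a * Real.log L) := by
  have hL' : (0 : ℝ) < L := by exact_mod_cast hL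
  rw [← Real.log_pow, Real.exp_log (by positivity)]

/-- the failure probability in BTL -/
lemma fail_bound {d C₁ L K Z r : ℕ} {κ : ℝ} (hd : 1 ≤ d) (hC₁ : 1 ≤ C₁) (hL : 1 ≤ L)
    (hZ : 100 * d * C₁ * Real.log L ≤ Z) (hK : K ≤ L ^ d)
    (hr : (Z + 1) * (2 * r + 1) ^ d ≤ L ^ d) (hκ0 : 0 ≤ κ)
    (hκ : ((2 * r + 1 : ℕ) : ℝ) ^ d * ((Z + 2) * κ) ≤ Real.exp (-1)) :
    C₁ * ((L : ℝ) ^ (2 * d) * Real.exp (-(Z : ℝ)) + (L : ℝ) ^ (2 * d) * (1 / 2) ^ ((Z - 1) / 2 / C₁)) +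
      K * (L : ℝ) ^ (2 * d) * (Z + 1) * ((2 * r + 1 : ℕ) : ℝ) ^ d *
        (((2 * r + 1 : ℕ) : ℝ) ^ d * ((Z + 2) * κ)) ^ Z ≤ (5 * C₁ + 1) * (1 / (L : ℝ) ^ d) := by
  set ℓ := Real.log L with hℓ
  have hℓ0 : 0 ≤ ℓ := Real.log_natCast_nonneg L
  have hd' : (1 : ℝ) ≤ d := by exact_mod_cast hd
  have hC' : (1 : ℝ) ≤ C₁ := by exact_mod_cast hC₁
  have hdℓ : 0 ≤ (d : ℝ) * ℓ := by positivity
  have e2d : (L : ℝ) ^ (2 * d) = Real.exp (2 * (d * ℓ)) := by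
    rw [pow_exp hL, ← hℓ]; push_cast; ring_nf
  have ed : (L : ℝ) ^ d = Real.exp (d * ℓ) := pow_exp hL d
  have einv : 1 / (L : ℝ) ^ d = Real.exp (-(d * ℓ)) := by
    rw [ed, Real.exp_neg, one_div]
  have hZ5 : 5 * (d * ℓ) ≤ Z := by
    refine le_trans ?_ hZ
    have : 100 * (d : ℝ) * C₁ * ℓ = 100 * C₁ * (d * ℓ) := by ring
    rw [this]
    exact mul_le_mul_of_nonneg_right (by linarith) hdℓ
  -- first term
  have t1 : (L : ℝ) ^ (2 * d) * Real.exp (-(Z : ℝ)) ≤ 1 / (L : ℝ) ^ d := by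
    rw [e2d, einv, ← Real.exp_add, Real.exp_le_exp]
    linarith
  -- second term
  have t2 : (L : ℝ) ^ (2 * d) * (1 / 2) ^ ((Z - 1) / 2 / C₁) ≤ 4 * (1 / (L : ℝ) ^ d) := by
    set n := (Z - 1) / 2 / C₁ with hn
    have hCpos : 0 < C₁ := hC₁
    have n1 : (Z - 1) / 2 < C₁ * n + C₁ := by
      have e1 := Nat.div_add_mod ((Z - 1) / 2) C₁
      have e2 := Nat.mod_lt ((Z - 1) / 2) hCpos
      rw [← hn] at e1
      omega
    have n2 : Z ≤ 2 * (C₁ * n) + 2 * C₁ + 1 := by omega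
    have n3 : (Z : ℝ) ≤ 2 * (C₁ * n) + 2 * C₁ + 1 := by exact_mod_cast n2
    have n4 : (Z : ℝ) / (2 * C₁) - 2 ≤ n := by
      rw [sub_le_iff_le_add, div_le_iff₀ (by positivity)]
      nlinarith
    have n5 : 50 * (d * ℓ) ≤ (Z : ℝ) / (2 * C₁) := by
      rw [le_div_iff₀ (by positivity)]
      refine le_trans (le_of_eq ?_) hZ
      ring
    have l2 := Real.log_two_gt_d9
    have l2' := Real.log_two_lt_d9
    have e1 : ((1 : ℝ) / 2) ^ n = Real.exp (-(n * Real.log 2)) := by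
      rw [one_div, inv_pow, Real.exp_neg, ← Real.log_pow, Real.exp_log (by positivity)]
    have e4 : (4 : ℝ) = Real.exp (2 * Real.log 2) := by
      rw [show (2 : ℝ) * Real.log 2 = ((2 : ℕ) : ℝ) * Real.log 2 by norm_num, ← Real.log_pow,
        Real.exp_log (by positivity)]
      norm_num
    rw [e1, e4, e2d, einv, ← Real.exp_add, ← Real.exp_add, Real.exp_le_exp]
    have n6 : (50 * (d * ℓ) - 2) * Real.log 2 ≤ n * Real.log 2 :=
      mul_le_mul_of_nonneg_right (by linarith) (by linarith)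
    nlinarith
  -- third term
  have t3 : K * (L : ℝ) ^ (2 * d) * (Z + 1) * ((2 * r + 1 : ℕ) : ℝ) ^ d *
        (((2 * r + 1 : ℕ) : ℝ) ^ d * ((Z + 2) * κ)) ^ Z ≤ 1 / (L : ℝ) ^ d := by
    have k1 : (K : ℝ) ≤ Real.exp (d * ℓ) := by rw [← ed]; exact_mod_cast hK
    have k2 : ((Z : ℝ) + 1) * ((2 * r + 1 : ℕ) : ℝ) ^ d ≤ Real.exp (d * ℓ) := by
      rw [← ed]; exact_mod_cast hr
    have k3 : (((2 * r + 1 : ℕ) : ℝ) ^ d * ((Z + 2) * κ)) ^ Z ≤ Real.exp (-(Z : ℝ)) := by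
      have h1 := pow_le_pow_left₀ (by positivity) hκ Z
      refine h1.trans (le_of_eq ?_)
      rw [← Real.exp_nat_mul]
      congr 1
      ring
    have k4 : K * (L : ℝ) ^ (2 * d) * (Z + 1) * ((2 * r + 1 : ℕ) : ℝ) ^ d *
        (((2 * r + 1 : ℕ) : ℝ) ^ d * ((Z + 2) * κ)) ^ Z =
        K * (L : ℝ) ^ (2 * d) * ((Z + 1) * ((2 * r + 1 : ℕ) : ℝ) ^ d) *
        (((2 * r + 1 : ℕ) : ℝ) ^ d * ((Z + 2) * κ)) ^ Z := by ring
    rw [k4, e2d]
    calc K * Real.exp (2 * (d * ℓ)) * ((Z + 1) * ((2 * r + 1 : ℕ) : ℝ) ^ d) *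
        (((2 * r + 1 : ℕ) : ℝ) ^ d * ((Z + 2) * κ)) ^ Z
        ≤ Real.exp (d * ℓ) * Real.exp (2 * (d * ℓ)) * Real.exp (d * ℓ) * Real.exp (-(Z : ℝ)) := by
          gcongr
      _ = Real.exp (4 * (d * ℓ) - Z) := by
          rw [← Real.exp_add, ← Real.exp_add, ← Real.exp_add]
          congr 1
          ring
      _ ≤ 1 / (L : ℝ) ^ d := by
          rw [einv, Real.exp_le_exp]
          linarith
  have hinv : 0 ≤ 1 / (L : ℝ) ^ d := by positivity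
  nlinarith

end Pool.Agent.Q297.LC
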